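import Pool.Agent.N724.TW.Asm
import Pool.Agent.N724.TW.T_INV

set_option autoImplicit false

/-!
# Splay trees and few relabellings: the relabelling given by labels, and the interleave bound

Every key `x` gets a label `u x`; the relabelling `pm u` sorts the keys by their labels.
-/

namespace Pool.Agent.Run7.h934.FR

open Pool.Agent.H581R2.Splay Pool.Agent.TH49.Spl Pool.Agent.Y395.SP Pool.Agent.N724.TW

/-- the number of keys with label less than `v` -/
def F {n : ℕ} (u : Fin n → ℕ) (v : ℕ) : ℕ := (Finset.univ.filter fun y => u y < v).card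

theorem F_mono {n : ℕ} (u : Fin n → ℕ) {v v' : ℕ} (h : v ≤ v') : F u v ≤ F u v' := by
  unfold F
  refine Finset.card_le_card fun y hy => ?_
  rw [Finset.mem_filter] at hy ⊢
  exact ⟨hy.1, by omega⟩

/-- the relabelling which sorts the keys by their labels -/
def pm {n : ℕ} (u : Fin n → ℕ) : Equiv.Perm (Fin n) := (Tuple.sort u).symm

theorem pm_lt {n : ℕ} (u : Fin n → ℕ) (x : Fin n) (v : ℕ) :
    ((pm u x : Fin n) : ℕ) < F u v ↔ u x < v := by
  have hmono : Monotone (u ∘ Tuple.sort u) := Tuple.monotone_sort u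
  have hx : Tuple.sort u (pm u x) = x := by
    unfold pm
    exact Equiv.apply_symm_apply _ _
  have hF : F u v = (Finset.univ.filter fun q => u (Tuple.sort u q) < v).card := by
    unfold F
    refine (Finset.card_bij (fun q _ => Tuple.sort u q) ?_ ?_ ?_).symm
    · intro q hq
      rw [Finset.mem_filter] at hq ⊢
      exact ⟨Finset.mem_univ _, hq.2⟩
    · intro q _ q' _ h
      exact (Tuple.sort u).injective h
    · intro y hy
      rw [Finset.mem_filter] at hy
      refine ⟨(Tuple.sort u).symm y, ?_, Equiv.apply_symm_apply _ _⟩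
      rw [Finset.mem_filter]
      refine ⟨Finset.mem_univ _, ?_⟩
      rw [Equiv.apply_symm_apply]
      exact hy.2
  constructor
  · intro h
    by_contra hcon
    have hsub : (Finset.univ.filter fun q => u (Tuple.sort u q) < v) ⊆ Finset.Iio (pm u x) := by
      intro q hq
      rw [Finset.mem_filter] at hq
      rw [Finset.mem_Iio]
      by_contra hq2
      have h1 : u (Tuple.sort u (pm u x)) ≤ u (Tuple.sort u q) := hmono (not_lt.1 hq2)
      rw [hx] at h1
      exact hcon (lt_of_le_of_lt h1 hq.2)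
    have h2 := Finset.card_le_card hsub
    rw [Fin.card_Iio, ← hF] at h2
    omega
  · intro h
    have hsub : Finset.Iic (pm u x) ⊆ (Finset.univ.filter fun q => u (Tuple.sort u q) < v) := by
      intro q hq
      rw [Finset.mem_Iic] at hq
      rw [Finset.mem_filter]
      refine ⟨Finset.mem_univ _, ?_⟩
      have h1 : u (Tuple.sort u q) ≤ u (Tuple.sort u (pm u x)) := hmono hq
      rw [hx] at h1
      exact lt_of_le_of_lt h1 h
    have h2 := Finset.card_le_card hsub
    rw [Fin.card_Iic, ← hF] at h2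
    omega

/-- the scheme of the labels in `[v, v + 2 ^ D)` -/
def FS {n : ℕ} (u : Fin n → ℕ) : ℕ → ℕ → AS
  | 0, _ => AS.leaf
  | D + 1, v => AS.node (F u (v + 2 ^ D)) false false (FS u D v) (FS u D (v + 2 ^ D))

theorem cred_FS {n : ℕ} (u : Fin n → ℕ) (D v : ℕ) : cred (FS u D v) = 0 := by
  induction D generalizing v with
  | zero => rfl
  | succ D ih => simp [FS, cred, ih]

theorem two_pow_eq (D l : ℕ) : l + 2 ^ (D + 1) = l + 2 ^ D + 2 ^ D := by
  rw [pow_succ]
  ring

theorem ok_FS {n : ℕ} (u : Fin n → ℕ) (D v : ℕ) : ok (FS u D v) (F u v) (F u (v + 2 ^ D)) := by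
  induction D generalizing v with
  | zero => trivial
  | succ D ih =>
    refine ⟨F_mono u (Nat.le_add_right _ _), ?_, ih v, ?_⟩
    · rw [two_pow_eq]
      exact F_mono u (Nat.le_add_right _ _)
    · rw [two_pow_eq]
      exact ih (v + 2 ^ D)

theorem inv_FS {n : ℕ} (u : Fin n → ℕ) (T : Tr) (D v l r : ℕ) : inv T (FS u D v) l r := by
  induction D generalizing v l r with
  | zero => trivial
  | succ D ih => exact ⟨by simp, ih _ _ _, ih _ _ _⟩

theorem val_FS {n : ℕ} (u : Fin n → ℕ) (Y : List ℕ) (D l : ℕ) :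
    val (FS u D l) (F u l) (F u (l + 2 ^ D)) Y =
    ∑ e ∈ Finset.range D, ∑ i ∈ Finset.range (2 ^ (D - 1 - e)),
      cnt (F u (l + i * (2 * 2 ^ e))) (F u (l + i * (2 * 2 ^ e) + 2 ^ e))
        (F u (l + (i + 1) * (2 * 2 ^ e))) false Y := by
  induction D generalizing l with
  | zero => simp [FS, val]
  | succ D ih =>
    rw [Finset.sum_range_succ]
    have h1 : val (FS u (D + 1) l) (F u l) (F u (l + 2 ^ (D + 1))) Y =
        cnt (F u l) (F u (l + 2 ^ D)) (F u (l + 2 ^ (D + 1))) false Y +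
          val (FS u D l) (F u l) (F u (l + 2 ^ D)) Y +
          val (FS u D (l + 2 ^ D)) (F u (l + 2 ^ D)) (F u (l + 2 ^ (D + 1))) Y := rfl
    have h2 : ∑ i ∈ Finset.range (2 ^ (D + 1 - 1 - D)),
        cnt (F u (l + i * (2 * 2 ^ D))) (F u (l + i * (2 * 2 ^ D) + 2 ^ D))
          (F u (l + (i + 1) * (2 * 2 ^ D))) false Y =
        cnt (F u l) (F u (l + 2 ^ D)) (F u (l + 2 ^ (D + 1))) false Y := by
      have e1 : D + 1 - 1 - D = 0 := by omega
      rw [e1, pow_zero, Finset.sum_range_one]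
      congr 2
      · ring
      · ring
      · rw [pow_succ]
        ring
    have h3 : ∑ e ∈ Finset.range D, ∑ i ∈ Finset.range (2 ^ (D + 1 - 1 - e)),
        cnt (F u (l + i * (2 * 2 ^ e))) (F u (l + i * (2 * 2 ^ e) + 2 ^ e))
          (F u (l + (i + 1) * (2 * 2 ^ e))) false Y =
        (∑ e ∈ Finset.range D, ∑ i ∈ Finset.range (2 ^ (D - 1 - e)),
          cnt (F u (l + i * (2 * 2 ^ e))) (F u (l + i * (2 * 2 ^ e) + 2 ^ e))
            (F u (l + (i + 1) * (2 * 2 ^ e))) false Y) +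
        ∑ e ∈ Finset.range D, ∑ i ∈ Finset.range (2 ^ (D - 1 - e)),
          cnt (F u (l + 2 ^ D + i * (2 * 2 ^ e))) (F u (l + 2 ^ D + i * (2 * 2 ^ e) + 2 ^ e))
            (F u (l + 2 ^ D + (i + 1) * (2 * 2 ^ e))) false Y := by
      rw [← Finset.sum_add_distrib]
      refine Finset.sum_congr rfl fun e he => ?_
      have he' := Finset.mem_range.1 he
      have e1 : D + 1 - 1 - e = (D - 1 - e) + 1 := by omega
      have e2 : 2 ^ (D - 1 - e) * (2 * 2 ^ e) = 2 ^ D := by
        rw [← pow_succ', ← pow_add]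
        congr 1
        omega
      rw [e1, pow_succ, mul_two, Finset.sum_range_add]
      congr 1
      refine Finset.sum_congr rfl fun i _ => ?_
      have e3 : (2 ^ (D - 1 - e) + i) * (2 * 2 ^ e) = 2 ^ D + i * (2 * 2 ^ e) := by
        rw [add_mul, e2]
      have e4 : (2 ^ (D - 1 - e) + i + 1) * (2 * 2 ^ e) = 2 ^ D + (i + 1) * (2 * 2 ^ e) := by
        rw [add_assoc, add_mul, e2]
      rw [e3, e4, ← add_assoc, ← add_assoc]
    rw [h1, h2, h3, ih l, two_pow_eq, ih (l + 2 ^ D)]
    ring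

/-- the number of changes from left to right in the nodes of the scheme of the labels in
`[0, 2 ^ D)` -/
def altU {n : ℕ} (u : Fin n → ℕ) (D : ℕ) (Y : List ℕ) : ℕ :=
  ∑ e ∈ Finset.range D, ∑ i ∈ Finset.range (2 ^ (D - 1 - e)),
    cnt (F u (i * (2 * 2 ^ e))) (F u (i * (2 * 2 ^ e) + 2 ^ e)) (F u ((i + 1) * (2 * 2 ^ e)))
      false Y

theorem altU_le {n : ℕ} (u : Fin n → ℕ) (D : ℕ) {T : Tr} {Y : List ℕ} {c : ℕ} (hb : IsBST T)
    (hY : ∀ x ∈ Y, x ∈ keys T) (hE : Exec T Y c) : altU u D Y ≤ 2 * c := by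
  have h := exec_val hE hb hY (FS u D 0) (F u 0) (F u (0 + 2 ^ D)) (ok_FS u D 0)
    (inv_FS u T D 0 _ _)
  rw [cred_FS, val_FS] at h
  unfold altU
  simpa only [zero_add, add_zero] using h

/-! ### Changes forced by pairs of blocks -/

theorem cnt_app (l m r : ℕ) (Y : List ℕ) : ∀ b : Bool, ∃ b' : Bool, ∀ Z : List ℕ,
    cnt l m r b (Y ++ Z) = cnt l m r b Y + cnt l m r b' Z := by
  induction Y with
  | nil => intro b; exact ⟨b, fun Z => by simp [cnt]⟩
  | cons y Y ih =>
    intro b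
    by_cases h1 : l ≤ y ∧ y < m
    · obtain ⟨b', hb'⟩ := ih true
      refine ⟨b', fun Z => ?_⟩
      simp only [List.cons_append, cnt, if_pos h1]
      exact hb' Z
    · by_cases h2 : m ≤ y ∧ y < r
      · obtain ⟨b', hb'⟩ := ih false
        refine ⟨b', fun Z => ?_⟩
        simp only [List.cons_append, cnt, if_neg h1, if_pos h2]
        rw [hb' Z]
        omega
      · obtain ⟨b', hb'⟩ := ih b
        refine ⟨b', fun Z => ?_⟩
        simp only [List.cons_append, cnt, if_neg h1, if_neg h2]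
        exact hb' Z

theorem cnt_true (l m r : ℕ) (Y : List ℕ) : (∃ x ∈ Y, m ≤ x ∧ x < r) →
    1 ≤ cnt l m r true Y := by
  induction Y with
  | nil => rintro ⟨x, hx, -⟩; simp at hx
  | cons y Y ih =>
    rintro ⟨x, hx, h1, h2⟩
    rw [List.mem_cons] at hx
    simp only [cnt]
    split_ifs with c1 c2
    · apply ih
      rcases hx with rfl | hx
      · omega
      · exact ⟨x, hx, h1, h2⟩
    · simp
    · apply ih
      rcases hx with rfl | hx
      · exact absurd ⟨h1, h2⟩ c2
      · exact ⟨x, hx, h1, h2⟩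

theorem cnt_pair (l m r : ℕ) (Y Z : List ℕ) : ∀ b : Bool, (∃ x ∈ Y, l ≤ x ∧ x < m) →
    (∃ x ∈ Z, m ≤ x ∧ x < r) → 1 ≤ cnt l m r b (Y ++ Z) := by
  induction Y with
  | nil => rintro b ⟨x, hx, -⟩; simp at hx
  | cons y Y ih =>
    rintro b ⟨x, hx, h1, h2⟩ h3
    rw [List.mem_cons] at hx
    simp only [List.cons_append, cnt]
    by_cases c1 : l ≤ y ∧ y < m
    · rw [if_pos c1]
      apply cnt_true
      obtain ⟨z, hz, h4⟩ := h3
      exact ⟨z, List.mem_append_right _ hz, h4⟩
    · rw [if_neg c1]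
      have hx' : x ∈ Y := by
        rcases hx with rfl | hx
        · exact absurd ⟨h1, h2⟩ c1
        · exact hx
      by_cases c2 : m ≤ y ∧ y < r
      · rw [if_pos c2]
        have := ih false ⟨x, hx', h1, h2⟩ h3
        omega
      · rw [if_neg c2]
        exact ih b ⟨x, hx', h1, h2⟩ h3

/-- the nodes whose left half is met by `A` and whose right half is met by `B` -/
def GN {n : ℕ} (w N : ℕ) (u : Fin n → ℕ) (A B : Finset (Fin n)) : Finset ℕ :=
  (Finset.range N).filter fun i => (∃ y ∈ A, u y / w = 2 * i) ∧ ∃ x ∈ B, u x / w = 2 * i + 1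

theorem mem_l {n : ℕ} (u : Fin n → ℕ) {w i : ℕ} (hw : 0 < w) {y : Fin n}
    (h : u y / w = 2 * i) : F u (i * (2 * w)) ≤ ((pm u y : Fin n) : ℕ) ∧
      ((pm u y : Fin n) : ℕ) < F u (i * (2 * w) + w) := by
  rw [Nat.div_eq_iff hw] at h
  constructor
  · by_contra hcon
    rw [not_le, pm_lt] at hcon
    nlinarith [h.1]
  · rw [pm_lt]
    have : 2 * i * w = i * (2 * w) := by ring
    omega

theorem mem_r {n : ℕ} (u : Fin n → ℕ) {w i : ℕ} (hw : 0 < w) {y : Fin n}
    (h : u y / w = 2 * i + 1) : F u (i * (2 * w) + w) ≤ ((pm u y : Fin n) : ℕ) ∧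
      ((pm u y : Fin n) : ℕ) < F u ((i + 1) * (2 * w)) := by
  rw [Nat.div_eq_iff hw] at h
  constructor
  · by_contra hcon
    rw [not_le, pm_lt] at hcon
    nlinarith [h.1]
  · rw [pm_lt]
    have e1 : (2 * i + 1) * w = i * (2 * w) + w := by ring
    have e2 : (i + 1) * (2 * w) = i * (2 * w) + w + w := by ring
    omega

theorem level_le {n : ℕ} (u : Fin n → ℕ) (w N : ℕ) (hw : 0 < w) (R : List (Fin n))
    (L : List (List (Fin n) × List (Fin n))) : ∀ b : ℕ → Bool,
    (L.map fun p => (GN w N u p.1.toFinset p.2.toFinset).card).sum ≤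
      ∑ i ∈ Finset.range N, cnt (F u (i * (2 * w))) (F u (i * (2 * w) + w))
        (F u ((i + 1) * (2 * w))) (b i)
          (rel (pm u) ((L.map fun p => p.1 ++ p.2).flatten ++ R)) := by
  induction L with
  | nil => intro b; simp
  | cons p L ih =>
    intro b
    have h0 : ∀ i : ℕ, ∃ b' : Bool, ∀ Z : List ℕ,
        cnt (F u (i * (2 * w))) (F u (i * (2 * w) + w)) (F u ((i + 1) * (2 * w))) (b i)
          (rel (pm u) (p.1 ++ p.2) ++ Z) =
        cnt (F u (i * (2 * w))) (F u (i * (2 * w) + w)) (F u ((i + 1) * (2 * w))) (b i)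
          (rel (pm u) (p.1 ++ p.2)) +
        cnt (F u (i * (2 * w))) (F u (i * (2 * w) + w)) (F u ((i + 1) * (2 * w))) b' Z :=
      fun i => cnt_app _ _ _ _ _
    choose b' hb' using h0
    have h1 : rel (pm u) (((p :: L).map fun p => p.1 ++ p.2).flatten ++ R) =
        rel (pm u) (p.1 ++ p.2) ++ rel (pm u) ((L.map fun p => p.1 ++ p.2).flatten ++ R) := by
      simp [rel]
    rw [h1, Finset.sum_congr rfl fun i _ => hb' i _, Finset.sum_add_distrib, List.map_cons,
      List.sum_cons]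
    refine Nat.add_le_add ?_ (ih b')
    rw [GN, Finset.card_filter]
    refine Finset.sum_le_sum fun i _ => ?_
    split_ifs with h2
    · obtain ⟨⟨y, hy, hy2⟩, x, hx, hx2⟩ := h2
      have h3 : rel (pm u) (p.1 ++ p.2) = rel (pm u) p.1 ++ rel (pm u) p.2 := by
        simp [rel]
      rw [h3]
      apply cnt_pair
      · refine ⟨((pm u y : Fin n) : ℕ), ?_, mem_l u hw hy2⟩
        unfold rel
        exact List.mem_map.2 ⟨y, List.mem_toFinset.1 hy, rfl⟩
      · refine ⟨((pm u x : Fin n) : ℕ), ?_, mem_r u hw hx2⟩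
        unfold rel
        exact List.mem_map.2 ⟨x, List.mem_toFinset.1 hx, rfl⟩
    · exact Nat.zero_le _

end Pool.Agent.Run7.h934.FR
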