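import Pool.Agent.N724.TW.Asm

set_option autoImplicit false

/-!
# Splay trees and few relabellings: phases
-/

namespace Pool.Agent.Run7.h934.FR

open Pool.Agent.H581R2.Splay Pool.Agent.TH49.Spl Pool.Agent.Y395.SP Pool.Agent.N724.TW

/-- number of the requests with working set number at least `s` -/
def MS {n : ℕ} (s : ℕ) : List (Fin n) → List (Fin n) → ℕ
  | _, [] => 0
  | h, x :: X => (if s ≤ wsF h x then 1 else 0) + MS s (x :: h) X

theorem MS_append {n : ℕ} (s : ℕ) (A B : List (Fin n)) : ∀ h : List (Fin n),
    MS s h (A ++ B) = MS s h A + MS s (A.reverse ++ h) B := by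
  induction A with
  | nil => intro h; simp [MS]
  | cons x A ih =>
    intro h
    simp only [List.cons_append, MS, List.reverse_cons, List.append_assoc, List.nil_append]
    rw [ih]
    omega

theorem takeWhile_mem {n : ℕ} {x : Fin n} (g h : List (Fin n)) (hx : x ∈ g) :
    (g ++ h).takeWhile (fun y => decide (y ≠ x)) = g.takeWhile (fun y => decide (y ≠ x)) := by
  induction g with
  | nil => simp at hx
  | cons y g ih =>
    rw [List.cons_append, List.takeWhile_cons, List.takeWhile_cons]
    by_cases hy : y = x
    · simp [hy]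
    · have hx' : x ∈ g := by
        rcases List.mem_cons.1 hx with h1 | h1
        · exact absurd h1.symm hy
        · exact h1
      simp only [ne_eq, hy, not_false_eq_true, decide_true, if_true]
      have := ih hx'
      simp only [ne_eq] at this
      rw [this]

theorem wsF_mem {n : ℕ} {x : Fin n} (g h : List (Fin n)) (hx : x ∈ g) :
    wsF (g ++ h) x < g.toFinset.card := by
  unfold wsF
  rw [takeWhile_mem g h hx]
  apply Finset.card_lt_card
  rw [Finset.ssubset_iff_of_subset]
  · exact ⟨x, List.mem_toFinset.2 hx, notMem_tw g x⟩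
  · intro y hy
    rw [List.mem_toFinset] at hy ⊢
    exact (List.takeWhile_prefix _).subset hy

theorem MS_phase {n : ℕ} (s : ℕ) (B : List (Fin n)) : ∀ g h : List (Fin n),
    (g ++ B).toFinset.card ≤ s → MS s (g ++ h) B ≤ (B.toFinset \ g.toFinset).card := by
  induction B with
  | nil => intro g h _; simp [MS]
  | cons x B ih =>
    intro g h hc
    simp only [MS]
    have e1 : ((x :: g) ++ B).toFinset = (g ++ x :: B).toFinset := by
      ext z
      simp only [List.mem_toFinset, List.mem_append, List.mem_cons]
      tauto
    have h1 := ih (x :: g) h (by rw [e1]; exact hc)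
    rw [List.cons_append] at h1
    by_cases hx : x ∈ g
    · have h2 := wsF_mem g h hx
      have h3 : g.toFinset.card ≤ (g ++ x :: B).toFinset.card := by
        apply Finset.card_le_card
        intro z hz
        rw [List.mem_toFinset] at hz ⊢
        exact List.mem_append_left _ hz
      rw [if_neg (by omega), zero_add]
      refine h1.trans (Finset.card_le_card ?_)
      intro z hz
      simp only [Finset.mem_sdiff, List.mem_toFinset, List.mem_cons] at hz ⊢
      tauto
    · have h4 : insert x (B.toFinset \ (x :: g).toFinset) ⊆ (x :: B).toFinset \ g.toFinset := by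
        intro z hz
        simp only [Finset.mem_insert, Finset.mem_sdiff, List.mem_toFinset, List.mem_cons] at hz ⊢
        rcases hz with rfl | hz
        · exact ⟨Or.inl rfl, hx⟩
        · tauto
      have h5 := Finset.card_le_card h4
      rw [Finset.card_insert_of_notMem (by simp)] at h5
      split_ifs <;> omega

/-- in a block with at most `s` keys there are at most `s` such requests -/
theorem MS_le {n : ℕ} (s : ℕ) (B h : List (Fin n)) (hB : B.toFinset.card ≤ s) :
    MS s h B ≤ s := by
  have h1 := MS_phase s B [] h (by simpa using hB)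
  rw [List.nil_append] at h1
  refine h1.trans (le_trans (Finset.card_le_card Finset.sdiff_subset) hB)

/-- a longest block with at most `s` keys at the start -/
theorem block_aux {n : ℕ} (s : ℕ) (X : List (Fin n)) : ∀ S0 : Finset (Fin n), S0.card ≤ s →
    ∃ B X' : List (Fin n), X = B ++ X' ∧ (S0 ∪ B.toFinset).card ≤ s ∧
      (X' = [] ∨ (S0 ∪ B.toFinset).card = s) := by
  induction X with
  | nil => intro S0 h0; exact ⟨[], [], rfl, by simpa using h0, Or.inl rfl⟩
  | cons x X ih =>
    intro S0 h0
    by_cases hc : (insert x S0).card ≤ s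
    · obtain ⟨B, X', e, h1, h2⟩ := ih (insert x S0) hc
      have e2 : S0 ∪ (x :: B).toFinset = insert x S0 ∪ B.toFinset := by
        ext z
        simp only [Finset.mem_union, Finset.mem_insert, List.mem_toFinset, List.mem_cons]
        tauto
      refine ⟨x :: B, X', by rw [e, List.cons_append], ?_, ?_⟩
      · rw [e2]; exact h1
      · rw [e2]; exact h2
    · have h3 := Finset.card_insert_le x S0
      refine ⟨[], x :: X, rfl, by simpa using h0, Or.inr ?_⟩
      have e3 : S0 ∪ ([] : List (Fin n)).toFinset = S0 := by simp
      rw [e3]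
      omega

theorem block {n : ℕ} (s : ℕ) (hs : 1 ≤ s) (X : List (Fin n)) :
    ∃ B X' : List (Fin n), X = B ++ X' ∧ B.toFinset.card ≤ s ∧
      (X' = [] ∨ (B.toFinset.card = s ∧ X'.length < X.length)) := by
  obtain ⟨B, X', e, h1, h2⟩ := block_aux s X ∅ (by simp)
  rw [Finset.empty_union] at h1 h2
  refine ⟨B, X', e, h1, ?_⟩
  rcases h2 with h2 | h2
  · exact Or.inl h2
  · refine Or.inr ⟨h2, ?_⟩
    have hB : B ≠ [] := by
      rintro rfl
      simp at h2
      omega
    have := List.length_pos_iff.2 hB
    rw [e, List.length_append]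
    omega

/-- pairs of phases with `s` keys each -/
theorem phases {n : ℕ} (s : ℕ) (hs : 1 ≤ s) : ∀ (N : ℕ) (X h : List (Fin n)), X.length ≤ N →
    ∃ (L : List (List (Fin n) × List (Fin n))) (R : List (Fin n)),
      X = (L.map fun p => p.1 ++ p.2).flatten ++ R ∧
      (∀ p ∈ L, p.1.toFinset.card = s ∧ p.2.toFinset.card = s) ∧
      MS s h X ≤ s * (2 * L.length + 2) := by
  intro N
  induction N with
  | zero =>
    intro X h hX
    have : X = [] := List.length_eq_zero_iff.1 (by omega)
    subst this
    exact ⟨[], [], by simp, by simp, by simp [MS]⟩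
  | succ N ih =>
    intro X h hX
    obtain ⟨B, X1, e1, b1, c1⟩ := block s hs X
    rcases c1 with c1 | ⟨c1, d1⟩
    · refine ⟨[], X, by simp, by simp, ?_⟩
      subst c1
      rw [List.append_nil] at e1
      subst e1
      have := MS_le s X h b1
      simp only [List.length_nil]
      omega
    · obtain ⟨B2, X2, e2, b2, c2⟩ := block s hs X1
      rcases c2 with c2 | ⟨c2, d2⟩
      · refine ⟨[], X, by simp, by simp, ?_⟩
        subst c2
        rw [List.append_nil] at e2
        subst e2
        rw [e1, MS_append]
        have h1 := MS_le s B h b1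
        have h2 := MS_le s X1 (B.reverse ++ h) b2
        simp only [List.length_nil]
        omega
      · obtain ⟨L, R, e3, h3, h4⟩ := ih X2 (B2.reverse ++ (B.reverse ++ h)) (by omega)
        refine ⟨(B, B2) :: L, R, ?_, ?_, ?_⟩
        · rw [e1, e2, e3]
          simp
        · intro p hp
          rcases List.mem_cons.1 hp with rfl | hp
          · exact ⟨c1, c2⟩
          · exact h3 p hp
        · rw [e1, MS_append, e2, MS_append]
          have h1 := MS_le s B h b1
          have h2 := MS_le s B2 (B.reverse ++ h) b2
          simp only [List.length_cons]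
          have e5 : s * (2 * (L.length + 1) + 2) = s * (2 * L.length + 2) + 2 * s := by ring
          rw [e5]
          omega

/-- the working set bound by levels -/
theorem wsumF_levels {n : ℕ} (K : ℕ) (hK : 1 ≤ K) (X : List (Fin n)) : ∀ h : List (Fin n),
    wsumF h X ≤ ((∑ l ∈ Finset.range n, MS (K * 2 ^ l) h X : ℕ) : ℝ) +
      Real.logb 2 K * X.length := by
  induction X with
  | nil => intro h; simp [wsumF, MS]
  | cons x X ih =>
    intro h
    have h1 := ih (x :: h)
    have ht := wsF_lt h x
    obtain ⟨t, ht0⟩ : ∃ t, t = wsF h x := ⟨_, rfl⟩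
    rw [← ht0] at ht
    have hex : ∃ q : ℕ, t < K * 2 ^ q := ⟨t, by
      have : t < 2 ^ t := Nat.lt_two_pow_self
      nlinarith⟩
    obtain ⟨q, hq, hqm⟩ : ∃ q : ℕ, t < K * 2 ^ q ∧ ∀ m < q, K * 2 ^ m ≤ t := by
      classical
      exact ⟨Nat.find hex, Nat.find_spec hex, fun m hm => not_lt.1 (Nat.find_min hex hm)⟩
    have hqn : q ≤ n := by
      rcases Nat.eq_zero_or_pos q with h0 | h0
      · omega
      · have h2 := hqm (q - 1) (by omega)
        have h3 : q - 1 < 2 ^ (q - 1) := Nat.lt_two_pow_self
        have h4 : 2 ^ (q - 1) ≤ K * 2 ^ (q - 1) := Nat.le_mul_of_pos_left _ hK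
        omega
    have hcount : q ≤ ∑ l ∈ Finset.range n, (if K * 2 ^ l ≤ t then 1 else 0) := by
      rw [← Finset.card_filter]
      have hsub : Finset.range q ⊆ (Finset.range n).filter fun l => K * 2 ^ l ≤ t := by
        intro l hl
        rw [Finset.mem_range] at hl
        rw [Finset.mem_filter, Finset.mem_range]
        exact ⟨by omega, hqm l hl⟩
      have := Finset.card_le_card hsub
      rwa [Finset.card_range] at this
    have hlog : Real.logb 2 ((t : ℝ) + 1) ≤ q + Real.logb 2 K := by
      have hK0 : (0 : ℝ) < K := by exact_mod_cast hK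
      have e1 : (q : ℝ) + Real.logb 2 K = Real.logb 2 ((2 : ℝ) ^ q * K) := by
        rw [Real.logb_mul (by positivity) hK0.ne', Real.logb_pow, Real.logb_self_eq_one (by norm_num)]
        ring
      rw [e1]
      apply Real.logb_le_logb_of_le (by norm_num) (by positivity)
      have h4 : t + 1 ≤ 2 ^ q * K := by rw [mul_comm]; exact hq
      exact_mod_cast h4
    simp only [wsumF, MS, List.length_cons, Finset.sum_add_distrib]
    rw [← ht0]
    have hc2 : (q : ℝ) ≤ ((∑ l ∈ Finset.range n, (if K * 2 ^ l ≤ t then 1 else 0) : ℕ) : ℝ) := by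
      exact_mod_cast hcount
    rw [Nat.cast_add]
    push_cast at h1 hc2 ⊢
    linarith

end Pool.Agent.Run7.h934.FR
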