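import Pool.Agent.Run7.h934.FR.Base

set_option autoImplicit false

/-!
# Splay trees and few relabellings: counting labellings
-/

namespace Pool.Agent.Run7.h934.FR

open Pool.Agent.H581R2.Splay Pool.Agent.TH49.Spl Pool.Agent.Y395.SP Pool.Agent.N724.TW

/-- the labels which avoid the left (`c = 0`) or right (`c = 1`) halves of the nodes in `U` -/
def av (M w c : ℕ) (U : Finset ℕ) : Finset (Fin M) :=
  Finset.univ.filter fun v => ∀ i ∈ U, (v : ℕ) / w ≠ 2 * i + c

theorem av_card (w N c M : ℕ) (hc : c ≤ 1) (hw : 0 < w) (hM : M = 2 * w * N) (U : Finset ℕ)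
    (hU : U ⊆ Finset.range N) : (av M w c U).card + U.card * w ≤ M := by
  classical
  have h1 : (U ×ˢ Finset.range w).card ≤ (Finset.univ \ av M w c U).card := by
    apply Finset.card_le_card_of_surjOn (fun v : Fin M => ((v : ℕ) / w / 2, (v : ℕ) % w))
    rintro ⟨i, r⟩ hir
    rw [Finset.mem_coe, Finset.mem_product, Finset.mem_range] at hir
    obtain ⟨hi, hr⟩ := hir
    have hi2 := Finset.mem_range.1 (hU hi)
    have hlt : (2 * i + c) * w + r < M := by
      have h2 : (2 * i + 2) * w ≤ 2 * w * N := by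
        have : (i + 1) * w ≤ N * w := Nat.mul_le_mul_right _ hi2
        nlinarith
      have h3 : (2 * i + c) * w + r < (2 * i + 2) * w := by
        have : (2 * i + c) * w ≤ (2 * i + 1) * w := Nat.mul_le_mul_right _ (by omega)
        nlinarith
      omega
    have hd : ((2 * i + c) * w + r) / w = 2 * i + c := by
      rw [Nat.div_eq_iff hw]
      have hr' : r < w := hr
      obtain ⟨q, hq⟩ : ∃ q, q = (2 * i + c) * w := ⟨_, rfl⟩
      rw [← hq]
      omega
    have hm : ((2 * i + c) * w + r) % w = r := Nat.mul_add_mod_of_lt hr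
    refine ⟨⟨(2 * i + c) * w + r, hlt⟩, ?_, ?_⟩
    · rw [Finset.mem_coe, Finset.mem_sdiff]
      refine ⟨Finset.mem_univ _, ?_⟩
      unfold av
      rw [Finset.mem_filter]
      rintro ⟨-, h⟩
      exact h i hi hd
    · simp only [hd, hm]
      rw [Prod.mk.injEq]
      exact ⟨by omega, rfl⟩
  rw [Finset.card_product, Finset.card_range] at h1
  have h2 : (Finset.univ \ av M w c U).card + (av M w c U).card = M := by
    rw [Finset.card_sdiff_add_card_eq_card (Finset.subset_univ _), Finset.card_univ,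
      Fintype.card_fin]
  omega

theorem av_real (w N c M : ℕ) (hc : c ≤ 1) (hw : 0 < w) (hN : 0 < N) (hM : M = 2 * w * N)
    (U : Finset ℕ) (hU : U ⊆ Finset.range N) :
    ((av M w c U).card : ℝ) ≤ M * Real.exp (-(U.card / (2 * N))) := by
  have h1 := av_card w N c M hc hw hM U hU
  have h2 : ((av M w c U).card : ℝ) + U.card * w ≤ M := by exact_mod_cast h1
  have hN' : (0 : ℝ) < N := by exact_mod_cast hN
  have hM' : (M : ℝ) = 2 * w * N := by rw [hM]; push_cast; ring
  have h3 : -((U.card : ℝ) / (2 * N)) + 1 ≤ Real.exp (-(U.card / (2 * N))) := Real.add_one_le_exp _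
  have h4 : (M : ℝ) * (-((U.card : ℝ) / (2 * N)) + 1) = M - U.card * w := by
    rw [hM']
    field_simp
    ring
  have h5 := mul_le_mul_of_nonneg_left h3 (Nat.cast_nonneg (α := ℝ) M)
  rw [h4] at h5
  linarith

open Classical in
theorem E_card (n w N M : ℕ) (hw : 0 < w) (hN : 0 < N) (hM : M = 2 * w * N)
    (A B : Finset (Fin n)) (hAB : Disjoint A B) (U U' : Finset ℕ) (hU : U ⊆ Finset.range N)
    (hU' : U' ⊆ Finset.range N) :
    ((Finset.univ.filter fun u : Fin n → Fin M => (∀ x ∈ A, u x ∈ av M w 0 U) ∧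
      ∀ x ∈ B, u x ∈ av M w 1 U').card : ℝ) ≤
      (M : ℝ) ^ n * Real.exp (-((A.card * U.card + B.card * U'.card) / (2 * N))) := by
  set Z : Fin n → Finset (Fin M) := fun x => if x ∈ A then av M w 0 U else
    if x ∈ B then av M w 1 U' else Finset.univ with hZ
  have hsub : (Finset.univ.filter fun u : Fin n → Fin M => (∀ x ∈ A, u x ∈ av M w 0 U) ∧
      ∀ x ∈ B, u x ∈ av M w 1 U') ⊆ Fintype.piFinset Z := by
    intro u hu
    rw [Finset.mem_filter] at hu
    rw [Fintype.mem_piFinset]
    intro x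
    simp only [hZ]
    split_ifs with h1 h2
    · exact hu.2.1 x h1
    · exact hu.2.2 x h2
    · exact Finset.mem_univ _
  have h1 : ((Finset.univ.filter fun u : Fin n → Fin M => (∀ x ∈ A, u x ∈ av M w 0 U) ∧
      ∀ x ∈ B, u x ∈ av M w 1 U').card : ℝ) ≤ ((Fintype.piFinset Z).card : ℝ) := by
    exact_mod_cast Finset.card_le_card hsub
  refine h1.trans ?_
  rw [Fintype.card_piFinset, Nat.cast_prod]
  have h2 : ∀ x ∈ (Finset.univ : Finset (Fin n)), ((Z x).card : ℝ) ≤
      M * Real.exp ((if x ∈ A then -((U.card : ℝ) / (2 * N)) else 0) +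
        (if x ∈ B then -((U'.card : ℝ) / (2 * N)) else 0)) := by
    intro x _
    simp only [hZ]
    by_cases hA : x ∈ A
    · have hB : x ∉ B := Finset.disjoint_left.1 hAB hA
      rw [if_pos hA, if_pos hA, if_neg hB, add_zero]
      exact av_real w N 0 M (by norm_num) hw hN hM U hU
    · by_cases hB : x ∈ B
      · rw [if_neg hA, if_neg hA, if_pos hB, if_pos hB, zero_add]
        exact av_real w N 1 M le_rfl hw hN hM U' hU'
      · rw [if_neg hA, if_neg hA, if_neg hB, if_neg hB, add_zero, Real.exp_zero, mul_one,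
          Finset.card_univ, Fintype.card_fin]
  refine (Finset.prod_le_prod (fun _ _ => Nat.cast_nonneg _) h2).trans (le_of_eq ?_)
  rw [Finset.prod_mul_distrib, Finset.prod_const, Finset.card_univ, Fintype.card_fin,
    ← Real.exp_sum, Finset.sum_add_distrib, Finset.sum_ite_mem, Finset.sum_ite_mem,
    Finset.univ_inter, Finset.univ_inter, Finset.sum_const, Finset.sum_const, nsmul_eq_mul,
    nsmul_eq_mul]
  congr 2
  ring

theorem exp34 : (2 : ℝ) ≤ Real.exp (3 / 4) := by
  have h := Real.quadratic_le_exp_of_nonneg (x := (3 / 4 : ℝ)) (by norm_num)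
  norm_num at h
  linarith

open Classical in
/-- few labellings meet less than a quarter of the nodes on both sides -/
theorem bad_card (n b w N M : ℕ) (hw : 0 < w) (hN : 0 < N) (hM : M = 2 * w * N)
    (A B : Finset (Fin n)) (hAB : Disjoint A B) (hA : A.card = 2 * (b + 2) * N)
    (hB : B.card = 2 * (b + 2) * N) :
    (Finset.univ.filter fun u : Fin n → Fin M =>
      4 * (GN w N (fun x => (u x : ℕ)) A B).card < N).card * 2 ^ (b * N) ≤ M ^ n := by
  set E : Finset ℕ × Finset ℕ → Finset (Fin n → Fin M) := fun p =>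
    Finset.univ.filter fun u : Fin n → Fin M => (∀ x ∈ A, u x ∈ av M w 0 p.1) ∧
      ∀ x ∈ B, u x ∈ av M w 1 p.2 with hE
  set PP := (((Finset.range N).powerset ×ˢ (Finset.range N).powerset).filter
    fun p : Finset ℕ × Finset ℕ => 3 * N ≤ 4 * (p.1.card + p.2.card)) with hPP
  have hsub : (Finset.univ.filter fun u : Fin n → Fin M =>
      4 * (GN w N (fun x => (u x : ℕ)) A B).card < N) ⊆ PP.biUnion E := by
    intro u hu
    rw [Finset.mem_filter] at hu
    rw [Finset.mem_biUnion]
    set U := (Finset.range N).filter fun i => ∀ y ∈ A, (u y : ℕ) / w ≠ 2 * i with hU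
    set U' := (Finset.range N).filter fun i => ∀ y ∈ B, (u y : ℕ) / w ≠ 2 * i + 1 with hU'
    refine ⟨(U, U'), ?_, ?_⟩
    · rw [hPP, Finset.mem_filter, Finset.mem_product, Finset.mem_powerset, Finset.mem_powerset]
      refine ⟨⟨Finset.filter_subset _ _, Finset.filter_subset _ _⟩, ?_⟩
      have h1 : Finset.range N ⊆ GN w N (fun x => (u x : ℕ)) A B ∪ (U ∪ U') := by
        intro i hi
        rw [Finset.mem_union, Finset.mem_union]
        by_cases c1 : i ∈ U
        · exact Or.inr (Or.inl c1)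
        · by_cases c2 : i ∈ U'
          · exact Or.inr (Or.inr c2)
          · left
            rw [hU, Finset.mem_filter] at c1
            rw [hU', Finset.mem_filter] at c2
            push Not at c1 c2
            unfold GN
            rw [Finset.mem_filter]
            exact ⟨hi, c1 hi, c2 hi⟩
      have h2 := Finset.card_le_card h1
      rw [Finset.card_range] at h2
      have h3 := Finset.card_union_le (GN w N (fun x => (u x : ℕ)) A B) (U ∪ U')
      have h4 := Finset.card_union_le U U'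
      have h5 := hu.2
      simp only
      omega
    · rw [hE]
      simp only [Finset.mem_filter, Finset.mem_univ, true_and, av]
      constructor
      · intro x hx i hi
        rw [hU, Finset.mem_filter] at hi
        rw [add_zero]
        exact hi.2 x hx
      · intro x hx i hi
        rw [hU', Finset.mem_filter] at hi
        exact hi.2 x hx
  have hN' : (0 : ℝ) < N := by exact_mod_cast hN
  have hEp : ∀ p ∈ PP, ((E p).card : ℝ) ≤ (M : ℝ) ^ n * (1 / 2) ^ ((b + 2) * N) := by
    intro p hp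
    rw [hPP, Finset.mem_filter, Finset.mem_product, Finset.mem_powerset, Finset.mem_powerset] at hp
    obtain ⟨⟨h1, h2⟩, h3⟩ := hp
    refine (E_card n w N M hw hN hM A B hAB p.1 p.2 h1 h2).trans ?_
    apply mul_le_mul_of_nonneg_left _ (by positivity)
    have h3' : (3 : ℝ) * N ≤ 4 * (p.1.card + p.2.card) := by exact_mod_cast h3
    have e1 : ((1 : ℝ) / 2) ^ ((b + 2) * N) = ((2 : ℝ) ^ ((b + 2) * N))⁻¹ := by
      rw [one_div, inv_pow]
    rw [e1, Real.exp_neg]
    apply inv_anti₀ (by positivity)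
    have h4 : (2 : ℝ) ^ ((b + 2) * N) ≤ Real.exp (3 / 4) ^ ((b + 2) * N) :=
      pow_le_pow_left₀ (by norm_num) exp34 _
    refine h4.trans ?_
    rw [← Real.exp_nat_mul]
    apply Real.exp_le_exp.2
    rw [hA, hB, le_div_iff₀ (by positivity)]
    push_cast
    have hb : (0 : ℝ) ≤ (b : ℝ) + 2 := by positivity
    have h6 : (0 : ℝ) ≤ ((b : ℝ) + 2) * N := by positivity
    nlinarith
  have hcard : ((Finset.univ.filter fun u : Fin n → Fin M =>
      4 * (GN w N (fun x => (u x : ℕ)) A B).card < N).card : ℝ) ≤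
      4 ^ N * ((M : ℝ) ^ n * (1 / 2) ^ ((b + 2) * N)) := by
    have h1 : ((Finset.univ.filter fun u : Fin n → Fin M =>
      4 * (GN w N (fun x => (u x : ℕ)) A B).card < N).card : ℝ) ≤ ∑ p ∈ PP, ((E p).card : ℝ) := by
      have := (Finset.card_le_card hsub).trans Finset.card_biUnion_le
      exact_mod_cast this
    refine h1.trans ((Finset.sum_le_sum hEp).trans ?_)
    rw [Finset.sum_const, nsmul_eq_mul]
    apply mul_le_mul_of_nonneg_right _ (by positivity)
    have h2 : PP.card ≤ 4 ^ N := by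
      refine (Finset.card_filter_le _ _).trans ?_
      rw [Finset.card_product, Finset.card_powerset, Finset.card_range, ← mul_pow]
      norm_num
    exact_mod_cast h2
  have e3 : (4 : ℝ) ^ N * ((M : ℝ) ^ n * (1 / 2) ^ ((b + 2) * N)) * 2 ^ (b * N) = (M : ℝ) ^ n := by
    have e4 : (4 : ℝ) ^ N = 2 ^ (2 * N) := by rw [pow_mul]; norm_num
    have e5 : ((1 : ℝ) / 2) ^ ((b + 2) * N) * (2 ^ (2 * N) * 2 ^ (b * N)) = 1 := by
      rw [← pow_add, ← add_mul, add_comm 2 b, ← mul_pow]
      norm_num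
    rw [e4]
    calc (2 : ℝ) ^ (2 * N) * ((M : ℝ) ^ n * (1 / 2) ^ ((b + 2) * N)) * 2 ^ (b * N)
        = (M : ℝ) ^ n * (((1 : ℝ) / 2) ^ ((b + 2) * N) * (2 ^ (2 * N) * 2 ^ (b * N))) := by ring
      _ = (M : ℝ) ^ n := by rw [e5, mul_one]
  have hfin : ((Finset.univ.filter fun u : Fin n → Fin M =>
      4 * (GN w N (fun x => (u x : ℕ)) A B).card < N).card : ℝ) * 2 ^ (b * N) ≤ (M : ℝ) ^ n := by
    rw [← e3]
    exact mul_le_mul_of_nonneg_right hcard (by positivity)
  exact_mod_cast hfin

open Classical in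
/-- few families fail -/
theorem fail_card {Ω : Type} [Fintype Ω] (k d N : ℕ) (hN : 0 < N) (Bad : Finset Ω)
    (hB : Bad.card * 2 ^ (4 * d * N) ≤ Fintype.card Ω) :
    (Finset.univ.filter fun τ : Fin k → Ω =>
      k < 2 * d * (Finset.univ.filter fun i => τ i ∈ Bad).card).card * 2 ^ (N * k) ≤
        Fintype.card Ω ^ k := by
  set f : Ω → ℕ := fun ω => if ω ∈ Bad then 2 ^ (4 * d * N) else 1 with hf
  have h1 : ∑ ω, f ω ≤ 2 * Fintype.card Ω := by
    rw [hf, Finset.sum_ite, Finset.sum_const, Finset.sum_const, smul_eq_mul, smul_eq_mul, mul_one]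
    have h2 : (Finset.univ.filter fun ω => ω ∈ Bad) = Bad := by
      ext ω; simp
    rw [h2]
    have h3 : (Finset.univ.filter fun ω => ω ∉ Bad).card ≤ Fintype.card Ω := Finset.card_le_univ _
    omega
  have h2 : ∀ τ : Fin k → Ω, ∏ i, f (τ i) =
      2 ^ (4 * d * N * (Finset.univ.filter fun i => τ i ∈ Bad).card) := by
    intro τ
    rw [hf]
    simp only
    rw [Finset.prod_ite, Finset.prod_const, Finset.prod_const_one, mul_one, ← pow_mul]
  have h3 : (Finset.univ.filter fun τ : Fin k → Ω =>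
      k < 2 * d * (Finset.univ.filter fun i => τ i ∈ Bad).card).card * 2 ^ (2 * (N * k)) ≤
        (2 * Fintype.card Ω) ^ k := by
    calc _ = ∑ τ ∈ (Finset.univ.filter fun τ : Fin k → Ω =>
          k < 2 * d * (Finset.univ.filter fun i => τ i ∈ Bad).card), 2 ^ (2 * (N * k)) := by
            rw [Finset.sum_const, smul_eq_mul]
      _ ≤ ∑ τ ∈ (Finset.univ.filter fun τ : Fin k → Ω =>
          k < 2 * d * (Finset.univ.filter fun i => τ i ∈ Bad).card), ∏ i, f (τ i) := by
            refine Finset.sum_le_sum fun τ hτ => ?_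
            rw [h2 τ]
            apply Nat.pow_le_pow_right (by norm_num)
            rw [Finset.mem_filter] at hτ
            have h4 := Nat.mul_le_mul_left (2 * N) hτ.2.le
            calc 2 * (N * k) = 2 * N * k := by ring
              _ ≤ _ := h4
              _ = _ := by ring
      _ ≤ ∑ τ : Fin k → Ω, ∏ i, f (τ i) := by
            apply Finset.sum_le_sum_of_subset
            exact Finset.filter_subset _ _
      _ = (∑ ω, f ω) ^ k := (Fintype.sum_pow f k).symm
      _ ≤ _ := Nat.pow_le_pow_left h1 k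
  have h5 : 2 ^ k ≤ 2 ^ (N * k) := Nat.pow_le_pow_right (by norm_num) (Nat.le_mul_of_pos_left _ hN)
  rw [mul_pow] at h3
  have e6 : 2 ^ (2 * (N * k)) = 2 ^ (N * k) * 2 ^ (N * k) := by
    rw [two_mul, pow_add]
  rw [e6] at h3
  set Fc := (Finset.univ.filter fun τ : Fin k → Ω =>
      k < 2 * d * (Finset.univ.filter fun i => τ i ∈ Bad).card).card with hFc
  have h7 : (Fc * 2 ^ (N * k)) * 2 ^ k ≤ Fintype.card Ω ^ k * 2 ^ k := by
    calc (Fc * 2 ^ (N * k)) * 2 ^ k ≤ (Fc * 2 ^ (N * k)) * 2 ^ (N * k) :=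
          Nat.mul_le_mul_left _ h5
      _ = Fc * (2 ^ (N * k) * 2 ^ (N * k)) := by ring
      _ ≤ 2 ^ k * Fintype.card Ω ^ k := h3
      _ = _ := by ring
  exact Nat.le_of_mul_le_mul_right h7 (by positivity)

open Classical in
/-- there is a good family -/
theorem exists_family (n d k : ℕ) (hn : 1 ≤ n) (hk : n ^ (16 * d + 9) < 2 ^ k) :
    ∃ τ : Fin k → (Fin n → Fin (2 ^ n)), ∀ e < n, ∀ A B : Finset (Fin n), Disjoint A B →
      A.card = 2 * (4 * d + 2) * 2 ^ (n - 1 - e) → B.card = 2 * (4 * d + 2) * 2 ^ (n - 1 - e) →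
      2 * d * (Finset.univ.filter fun i => 4 * (GN (2 ^ e) (2 ^ (n - 1 - e))
        (fun x => (τ i x : ℕ)) A B).card < 2 ^ (n - 1 - e)).card ≤ k := by
  by_contra hcon
  push Not at hcon
  set BD : ℕ → Finset (Fin n) × Finset (Fin n) → Finset (Fin n → Fin (2 ^ n)) := fun e p =>
    Finset.univ.filter fun u : Fin n → Fin (2 ^ n) =>
      4 * (GN (2 ^ e) (2 ^ (n - 1 - e)) (fun x => (u x : ℕ)) p.1 p.2).card < 2 ^ (n - 1 - e)
    with hBD
  set FL : ℕ → Finset (Fin n) × Finset (Fin n) → Finset (Fin k → (Fin n → Fin (2 ^ n))) :=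
    fun e p => Finset.univ.filter fun τ : Fin k → (Fin n → Fin (2 ^ n)) =>
      k < 2 * d * (Finset.univ.filter fun i => τ i ∈ BD e p).card with hFL
  set PP : ℕ → Finset (Finset (Fin n) × Finset (Fin n)) := fun e =>
    ((Finset.powersetCard (2 * (4 * d + 2) * 2 ^ (n - 1 - e)) Finset.univ) ×ˢ
      (Finset.powersetCard (2 * (4 * d + 2) * 2 ^ (n - 1 - e)) Finset.univ)).filter
        fun p => Disjoint p.1 p.2 with hPP
  have hcov : (Finset.univ : Finset (Fin k → (Fin n → Fin (2 ^ n)))) ⊆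
      (Finset.range n).biUnion fun e => (PP e).biUnion fun p => FL e p := by
    intro τ _
    obtain ⟨e, he, A, B, hAB, hA, hB, hlt⟩ := hcon τ
    rw [Finset.mem_biUnion]
    refine ⟨e, Finset.mem_range.2 he, ?_⟩
    rw [Finset.mem_biUnion]
    refine ⟨(A, B), ?_, ?_⟩
    · rw [hPP]
      simp only [Finset.mem_filter, Finset.mem_product, Finset.mem_powersetCard]
      exact ⟨⟨⟨Finset.subset_univ _, hA⟩, ⟨Finset.subset_univ _, hB⟩⟩, hAB⟩
    · rw [hFL]
      simp only [Finset.mem_filter, Finset.mem_univ, true_and, hBD]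
      exact hlt
  have hΩ : Fintype.card (Fin n → Fin (2 ^ n)) = (2 ^ n) ^ n := by
    rw [Fintype.card_fun, Fintype.card_fin, Fintype.card_fin]
  set Q : ℕ := ((2 ^ n) ^ n) ^ k with hQ
  have hcard : Q ≤ ∑ e ∈ Finset.range n, ∑ p ∈ PP e, (FL e p).card := by
    have h1 := Finset.card_le_card hcov
    rw [Finset.card_univ, Fintype.card_fun, Fintype.card_fin, hΩ] at h1
    refine h1.trans (Finset.card_biUnion_le.trans ?_)
    exact Finset.sum_le_sum fun e _ => Finset.card_biUnion_le
  have hlev : ∀ e ∈ Finset.range n, n * ∑ p ∈ PP e, (FL e p).card < Q := by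
    intro e he
    have he' := Finset.mem_range.1 he
    obtain ⟨N, hNdef⟩ : ∃ N : ℕ, N = 2 ^ (n - 1 - e) := ⟨_, rfl⟩
    have hN : 0 < N := by rw [hNdef]; positivity
    have hM : 2 ^ n = 2 * 2 ^ e * N := by
      rw [hNdef, ← pow_succ', ← pow_add]
      congr 1
      omega
    have hFLp : ∀ p ∈ PP e, (FL e p).card * 2 ^ (N * k) ≤ Q := by
      intro p hp
      rw [hPP] at hp
      simp only [Finset.mem_filter, Finset.mem_product, Finset.mem_powersetCard] at hp
      obtain ⟨⟨⟨-, hA⟩, ⟨-, hB⟩⟩, hAB⟩ := hp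
      have h1 : (BD e p).card * 2 ^ (4 * d * N) ≤ Fintype.card (Fin n → Fin (2 ^ n)) := by
        rw [hΩ, hBD]
        simp only
        rw [← hNdef] at hA hB ⊢
        exact bad_card n (4 * d) (2 ^ e) N (2 ^ n) (by positivity) hN hM p.1 p.2 hAB hA hB
      have h2 := fail_card k d N hN (BD e p) h1
      rw [hΩ] at h2
      rw [hQ]
      convert h2
    have hPPc : (PP e).card ≤ n ^ (2 * (2 * (4 * d + 2)) * N) := by
      rw [hPP]
      refine (Finset.card_filter_le _ _).trans ?_
      rw [Finset.card_product, Finset.card_powersetCard, Finset.card_univ, Fintype.card_fin,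
        ← hNdef]
      have h3 := Nat.choose_le_pow n (2 * (4 * d + 2) * N)
      calc _ ≤ n ^ (2 * (4 * d + 2) * N) * n ^ (2 * (4 * d + 2) * N) := Nat.mul_le_mul h3 h3
        _ = n ^ (2 * (2 * (4 * d + 2)) * N) := by
          rw [← pow_add]
          congr 1
          ring
    have hpow : n * n ^ (2 * (2 * (4 * d + 2)) * N) < 2 ^ (N * k) := by
      calc n * n ^ (2 * (2 * (4 * d + 2)) * N) = n ^ (2 * (2 * (4 * d + 2)) * N + 1) := by
            rw [pow_succ]; ring
        _ ≤ n ^ ((16 * d + 9) * N) := by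
            apply Nat.pow_le_pow_right hn
            nlinarith
        _ = (n ^ (16 * d + 9)) ^ N := by rw [pow_mul]
        _ < (2 ^ k) ^ N := Nat.pow_lt_pow_left hk hN.ne'
        _ = 2 ^ (N * k) := by rw [← pow_mul]; congr 1; ring
    have hQpos : 0 < Q := by rw [hQ]; positivity
    have h4 : (n * ∑ p ∈ PP e, (FL e p).card) * 2 ^ (N * k) < Q * 2 ^ (N * k) := by
      calc (n * ∑ p ∈ PP e, (FL e p).card) * 2 ^ (N * k)
          = n * ∑ p ∈ PP e, (FL e p).card * 2 ^ (N * k) := by
            rw [← Finset.sum_mul]; ring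
        _ ≤ n * ∑ p ∈ PP e, Q := Nat.mul_le_mul_left _ (Finset.sum_le_sum hFLp)
        _ = n * (PP e).card * Q := by rw [Finset.sum_const, smul_eq_mul]; ring
        _ ≤ n * n ^ (2 * (2 * (4 * d + 2)) * N) * Q := by
            apply Nat.mul_le_mul_right
            exact Nat.mul_le_mul_left _ hPPc
        _ < 2 ^ (N * k) * Q := Nat.mul_lt_mul_of_pos_right hpow hQpos
        _ = _ := by ring
    exact Nat.lt_of_mul_lt_mul_right h4
  have hsum : ∑ e ∈ Finset.range n, n * ∑ p ∈ PP e, (FL e p).card < ∑ e ∈ Finset.range n, Q :=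
    Finset.sum_lt_sum_of_nonempty ⟨0, Finset.mem_range.2 hn⟩ hlev
  rw [← Finset.mul_sum, Finset.sum_const, Finset.card_range, smul_eq_mul] at hsum
  have := Nat.lt_of_mul_lt_mul_left hsum
  omega

end Pool.Agent.Run7.h934.FR
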