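import Pool.Agent.Run7.h934.FR.Sep
import Pool.Agent.R531.Spl.ExE

set_option autoImplicit false

/-!
# Splay trees and few relabellings: an execution for the leaves of a decomposition
-/

namespace Pool.Agent.Run7.h934.FR

open Pool.Agent.H581R2.Splay Pool.Agent.TH49.Spl Pool.Agent.Y395.SP Pool.Agent.N724.TW
open Pool.Agent.R531.Spl (rotN_trans rotN_symm rotN_one rotN_two ExecE)

/-- the tree represents the decomposition -/
inductive Rep {n : ℕ} (σ : Equiv.Perm (Fin n)) : DT n → Tr → Prop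
  | leaf (x : Fin n) (A B : Tr) : Rep σ (.leaf x) (Tr.node ((σ x : Fin n) : ℕ) A B)
  | lr (l r : DT n) (s : ℕ) (A B : Tr) : Rep σ l A → Rep σ r B →
      Rep σ (.node l r) (Tr.node s A B)
  | rl (l r : DT n) (s : ℕ) (A B : Tr) : Rep σ r A → Rep σ l B →
      Rep σ (.node l r) (Tr.node s A B)

theorem exists_tree (K : List ℕ) : ∃ T : Tr, keys T = K := by
  induction K with
  | nil => exact ⟨Tr.nil, rfl⟩
  | cons a K ih =>
    obtain ⟨T, hT⟩ := ih
    exact ⟨Tr.node a Tr.nil T, by simp [keys, hT]⟩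

theorem range_split (a s b : ℕ) (h1 : a ≤ s) (h2 : s < b) :
    List.range' a (s - a) ++ s :: List.range' (s + 1) (b - (s + 1)) = List.range' a (b - a) := by
  have e1 : b - a = (s - a) + (b - s) := by omega
  have e2 : b - s = (b - (s + 1)) + 1 := by omega
  rw [e1, ← List.range'_append_1, show a + (s - a) = s by omega, e2, List.range'_succ]

theorem exists_rep {n : ℕ} (σ : Equiv.Perm (Fin n)) (t : DT n) : ∀ a b : ℕ, Sep σ t →
    (∀ x ∈ lvs t, a ≤ ((σ x : Fin n) : ℕ) ∧ ((σ x : Fin n) : ℕ) < b) →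
    ∃ T : Tr, keys T = List.range' a (b - a) ∧ Rep σ t T := by
  induction t with
  | leaf x =>
    intro a b _ h
    obtain ⟨h1, h2⟩ := h x (by simp [lvs])
    obtain ⟨A, hA⟩ := exists_tree (List.range' a ((σ x : ℕ) - a))
    obtain ⟨B, hB⟩ := exists_tree (List.range' ((σ x : ℕ) + 1) (b - ((σ x : ℕ) + 1)))
    refine ⟨Tr.node ((σ x : Fin n) : ℕ) A B, ?_, Rep.leaf x A B⟩
    rw [keys, hA, hB, range_split a _ b h1 h2]
  | node l r ihl ihr =>
    rintro a b ⟨⟨s, hs⟩, hl, hr⟩ h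
    obtain ⟨x, hx⟩ := List.exists_mem_of_ne_nil _ (lvs_ne l)
    obtain ⟨y, hy⟩ := List.exists_mem_of_ne_nil _ (lvs_ne r)
    have hxl : ∀ x ∈ lvs l, a ≤ ((σ x : Fin n) : ℕ) ∧ ((σ x : Fin n) : ℕ) < b := fun x hx =>
      h x (by rw [lvs]; exact List.mem_append_left _ hx)
    have hyr : ∀ x ∈ lvs r, a ≤ ((σ x : Fin n) : ℕ) ∧ ((σ x : Fin n) : ℕ) < b := fun x hx =>
      h x (by rw [lvs]; exact List.mem_append_right _ hx)
    rcases hs with ⟨h1, h2⟩ | ⟨h1, h2⟩
    · have q1 := h1 x hx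
      have q2 := h2 y hy
      have q3 := (hxl x hx).1
      have q4 := (hyr y hy).2
      simp only at q1 q2
      obtain ⟨A, hA, rA⟩ := ihl a s hl (fun z hz => ⟨(hxl z hz).1, h1 z hz⟩)
      obtain ⟨B, hB, rB⟩ := ihr (s + 1) b hr (fun z hz => ⟨h2 z hz, (hyr z hz).2⟩)
      refine ⟨Tr.node s A B, ?_, Rep.lr l r s A B rA rB⟩
      rw [keys, hA, hB, range_split a s b (by omega) (by omega)]
    · have q1 := h1 y hy
      have q2 := h2 x hx
      have q3 := (hyr y hy).1
      have q4 := (hxl x hx).2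
      simp only at q1 q2
      obtain ⟨A, hA, rA⟩ := ihr a s hr (fun z hz => ⟨(hyr z hz).1, h1 z hz⟩)
      obtain ⟨B, hB, rB⟩ := ihl (s + 1) b hl (fun z hz => ⟨h2 z hz, (hxl z hz).2⟩)
      refine ⟨Tr.node s A B, ?_, Rep.rl l r s A B rA rB⟩
      rw [keys, hA, hB, range_split a s b (by omega) (by omega)]

/-! ### moving the root along the tree -/

def mkL : Option (ℕ × Tr) → Tr → Tr
  | none, A => A
  | some (u, C), A => Tr.node u C A

def mkR : Tr → Option (ℕ × Tr) → Tr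
  | B, none => B
  | B, some (w, D) => Tr.node w B D

/-- the tree in which the root of `T` is the root; the nearest ancestors are its children -/
def St : Tr → Option (ℕ × Tr) → Option (ℕ × Tr) → Tr
  | Tr.nil, _, _ => Tr.nil
  | Tr.node q A B, cl, cr => Tr.node q (mkL cl A) (mkR B cr)

theorem St_none (T : Tr) : St T none none = T := by
  cases T <;> rfl

theorem move_l (q a : ℕ) (A1 A2 B : Tr) (cl cr : Option (ℕ × Tr)) : ∃ e ≤ 2,
    RotN e (St (Tr.node q (Tr.node a A1 A2) B) cl cr)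
      (St (Tr.node a A1 A2) cl (some (q, mkR B cr))) := by
  rcases cl with _ | ⟨u, C⟩
  · exact ⟨1, by norm_num, rotN_one (Rot.right q a A1 A2 (mkR B cr))⟩
  · exact ⟨2, le_rfl, rotN_two (Rot.inl q _ _ (mkR B cr) _ (Rot.left a u C A1 A2))
      (Rot.right q a (Tr.node u C A1) A2 (mkR B cr))⟩

theorem move_r (q b : ℕ) (A B1 B2 : Tr) (cl cr : Option (ℕ × Tr)) : ∃ e ≤ 2,
    RotN e (St (Tr.node q A (Tr.node b B1 B2)) cl cr)
      (St (Tr.node b B1 B2) (some (q, mkL cl A)) cr) := by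
  rcases cr with _ | ⟨w, D⟩
  · exact ⟨1, by norm_num, rotN_one (Rot.left b q (mkL cl A) B1 B2)⟩
  · exact ⟨2, le_rfl, rotN_two (Rot.inr q (mkL cl A) _ _ _ (Rot.right w b B1 B2 D))
      (Rot.left b q (mkL cl A) B1 (Tr.node w B2 D))⟩

/-- rotations, then an execution -/
def Sv (T : Tr) (Y : List ℕ) (T' : Tr) (c : ℕ) : Prop :=
  ∃ (T0 : Tr) (e c' : ℕ), RotN e T T0 ∧ ExecE T0 Y T' c' ∧ e + c' ≤ c

theorem Sv.app {T T' T'' : Tr} {Y Y' : List ℕ} {c c' : ℕ} (h : Sv T Y T' c)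
    (h' : Sv T' Y' T'' c') (hY : Y ≠ []) : Sv T (Y ++ Y') T'' (c + c') := by
  obtain ⟨T0, e, d, h1, h2, h3⟩ := h
  obtain ⟨T1, e', d', h4, h5, h6⟩ := h'
  exact ⟨T0, e, _, h1, (h2.more h4 hY).append h5, by omega⟩

theorem Sv.pre {T T' T'' : Tr} {Y : List ℕ} {c e : ℕ} (h : RotN e T T')
    (h' : Sv T' Y T'' c) : Sv T Y T'' (e + c) := by
  obtain ⟨T1, e', d', h4, h5, h6⟩ := h'
  exact ⟨T1, _, _, rotN_trans h h4, h5, by omega⟩

theorem Sv.post {T T' T'' : Tr} {Y : List ℕ} {c e : ℕ} (h : Sv T Y T' c)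
    (h' : RotN e T' T'') (hY : Y ≠ []) : Sv T Y T'' (c + e) := by
  obtain ⟨T0, e0, d, h1, h2, h3⟩ := h
  exact ⟨T0, e0, _, h1, h2.more h' hY, by omega⟩

theorem Sv.mono {T T' : Tr} {Y : List ℕ} {c c' : ℕ} (h : Sv T Y T' c) (hc : c ≤ c') :
    Sv T Y T' c' := by
  obtain ⟨T0, e0, d, h1, h2, h3⟩ := h
  exact ⟨T0, e0, d, h1, h2, h3.trans hc⟩

/-- a visit: move, serve, and move back -/
theorem Sv.visit {T T' : Tr} {Y : List ℕ} {c : ℕ} (h : ∃ e ≤ 2, RotN e T T')
    (h' : Sv T' Y T' c) (hY : Y ≠ []) : Sv T Y T (c + 4) := by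
  obtain ⟨e, he, h1⟩ := h
  exact ((h'.post (rotN_symm h1) hY).pre h1).mono (by omega)

def cst {n : ℕ} : DT n → ℕ
  | .leaf _ => 1
  | .node l r => cst l + cst r + 8

theorem cst_le {n : ℕ} (t : DT n) : cst t + 8 ≤ 9 * (lvs t).length := by
  induction t with
  | leaf x => simp [cst, lvs]
  | node l r ihl ihr =>
    simp only [cst, lvs, List.length_append]
    omega

theorem rel_ne {n : ℕ} (σ : Equiv.Perm (Fin n)) (t : DT n) : rel σ (lvs t) ≠ [] := by
  unfold rel
  simp [lvs_ne]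

theorem rel_append {n : ℕ} (σ : Equiv.Perm (Fin n)) (X Y : List (Fin n)) :
    rel σ (X ++ Y) = rel σ X ++ rel σ Y := by
  simp [rel]

theorem serve_rep {n : ℕ} (σ : Equiv.Perm (Fin n)) {t : DT n} {T : Tr} (h : Rep σ t T) :
    ∀ cl cr : Option (ℕ × Tr), Sv (St T cl cr) (rel σ (lvs t)) (St T cl cr) (cst t) := by
  induction h with
  | leaf x A B =>
    intro cl cr
    refine ⟨_, 0, _, RotN.refl _, ExecE.cons _ _ _ ((σ x : Fin n) : ℕ) [] 0 0 (RotN.refl _)
      (ExecE.nil _), ?_⟩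
    simp [St, dep, cst]
  | lr l r s A B hA hB ihA ihB =>
    intro cl cr
    have h1 : Sv (St (Tr.node s A B) cl cr) (rel σ (lvs l)) (St (Tr.node s A B) cl cr)
        (cst l + 4) := by
      have hm : ∃ e ≤ 2, RotN e (St (Tr.node s A B) cl cr) (St A cl (some (s, mkR B cr))) := by
        cases hA <;> exact move_l _ _ _ _ _ _ _
      exact Sv.visit hm (ihA _ _) (rel_ne σ l)
    have h2 : Sv (St (Tr.node s A B) cl cr) (rel σ (lvs r)) (St (Tr.node s A B) cl cr)
        (cst r + 4) := by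
      have hm : ∃ e ≤ 2, RotN e (St (Tr.node s A B) cl cr) (St B (some (s, mkL cl A)) cr) := by
        cases hB <;> exact move_r _ _ _ _ _ _ _
      exact Sv.visit hm (ihB _ _) (rel_ne σ r)
    rw [lvs, rel_append]
    refine (h1.app h2 (rel_ne σ l)).mono ?_
    simp only [cst]
    omega
  | rl l r s A B hA hB ihA ihB =>
    intro cl cr
    have h1 : Sv (St (Tr.node s A B) cl cr) (rel σ (lvs r)) (St (Tr.node s A B) cl cr)
        (cst r + 4) := by
      have hm : ∃ e ≤ 2, RotN e (St (Tr.node s A B) cl cr) (St A cl (some (s, mkR B cr))) := by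
        cases hA <;> exact move_l _ _ _ _ _ _ _
      exact Sv.visit hm (ihA _ _) (rel_ne σ r)
    have h2 : Sv (St (Tr.node s A B) cl cr) (rel σ (lvs l)) (St (Tr.node s A B) cl cr)
        (cst l + 4) := by
      have hm : ∃ e ≤ 2, RotN e (St (Tr.node s A B) cl cr) (St B (some (s, mkL cl A)) cr) := by
        cases hB <;> exact move_r _ _ _ _ _ _ _
      exact Sv.visit hm (ihB _ _) (rel_ne σ l)
    rw [lvs, rel_append]
    refine (h2.app h1 (rel_ne σ l)).mono ?_
    simp only [cst]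
    omega

theorem Sv.rep {T : Tr} {Y : List ℕ} {c : ℕ} (h : Sv T Y T c) (hY : Y ≠ []) (R : ℕ) :
    Sv T (List.replicate (R + 1) Y).flatten T ((R + 1) * c) := by
  induction R with
  | zero => simpa using h
  | succ R ih =>
    rw [List.replicate_succ, List.flatten_cons]
    refine (h.app ih hY).mono (le_of_eq ?_)
    ring

theorem rel_flatten {n : ℕ} (σ : Equiv.Perm (Fin n)) (X : List (Fin n)) (R : ℕ) :
    rel σ (List.replicate R X).flatten = (List.replicate R (rel σ X)).flatten := by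
  induction R with
  | zero => simp [rel]
  | succ R ih =>
    rw [List.replicate_succ, List.flatten_cons, rel_append, ih, List.replicate_succ,
      List.flatten_cons]

/-- the optimum for the repeated leaves is linear -/
theorem opt_rep {n : ℕ} (σ : Equiv.Perm (Fin n)) (t : DT n) (h : Sep σ t) (R : ℕ) :
    optAny (List.range n) (rel σ (List.replicate (R + 1) (lvs t)).flatten) ≤
      9 * (List.replicate (R + 1) (lvs t)).flatten.length := by
  obtain ⟨T, hT, hR⟩ := exists_rep σ t 0 n h (fun x _ => ⟨Nat.zero_le _, (σ x).2⟩)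
  rw [Nat.sub_zero, ← List.range_eq_range'] at hT
  have h1 := serve_rep σ hR none none
  rw [St_none] at h1
  obtain ⟨T0, e, c, h2, h3, h4⟩ := h1.rep (rel_ne σ t) R
  rw [← rel_flatten] at h3
  have h5 : optAny (List.range n) (rel σ (List.replicate (R + 1) (lvs t)).flatten) ≤ c := by
    apply Nat.sInf_le
    exact ⟨T0, by rw [rotN_keys h2, hT], h3.exec⟩
  have h6 := cst_le t
  have h7 : (List.replicate (R + 1) (lvs t)).flatten.length = (R + 1) * (lvs t).length := by
    simp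
  rw [h7]
  have h8 : (R + 1) * cst t ≤ (R + 1) * (9 * (lvs t).length) :=
    Nat.mul_le_mul_left _ (by omega)
  calc _ ≤ c := h5
    _ ≤ (R + 1) * cst t := by omega
    _ ≤ (R + 1) * (9 * (lvs t).length) := h8
    _ = 9 * ((R + 1) * (lvs t).length) := by ring

end Pool.Agent.Run7.h934.FR
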