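import Pool.Agent.N724.TW.Asm

set_option autoImplicit false

/-!
# Splay trees and few relabellings: the working set bound of a repeated sequence
-/

namespace Pool.Agent.Run7.h934.FR

open Pool.Agent.H581R2.Splay Pool.Agent.TH49.Spl Pool.Agent.Y395.SP Pool.Agent.N724.TW

theorem wsF_ge {n : ℕ} (x : Fin n) (P H : List (Fin n)) (hx : x ∉ P) (hP : P.Nodup) :
    P.length ≤ wsF (P ++ H) x := by
  unfold wsF
  rw [List.takeWhile_append_of_pos (by
    intro y hy
    simp only [decide_eq_true_eq]
    rintro rfl
    exact hx hy)]
  rw [← List.toFinset_card_of_nodup hP]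
  apply Finset.card_le_card
  intro y hy
  rw [List.mem_toFinset] at hy ⊢
  exact List.mem_append_left _ hy

theorem wsumF_append {n : ℕ} (A B : List (Fin n)) : ∀ h : List (Fin n),
    wsumF h (A ++ B) = wsumF h A + wsumF (A.reverse ++ h) B := by
  induction A with
  | nil => intro h; simp [wsumF]
  | cons x A ih =>
    intro h
    simp only [List.cons_append, wsumF, List.reverse_cons, List.append_assoc, List.nil_append]
    rw [ih]
    ring

theorem wsumF_nonneg {n : ℕ} (X : List (Fin n)) : ∀ h : List (Fin n), 0 ≤ wsumF h X := by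
  induction X with
  | nil => intro h; simp [wsumF]
  | cons x X ih =>
    intro h
    simp only [wsumF]
    have h1 : 0 ≤ Real.logb 2 ((wsF h x : ℝ) + 1) :=
      Real.logb_nonneg (by norm_num) (by have := Nat.cast_nonneg (α := ℝ) (wsF h x); linarith)
    have h2 := ih (x :: h)
    linarith

theorem ws_copy {n : ℕ} (g : List (Fin n)) (q : List (Fin n)) : ∀ p : List (Fin n),
    (p ++ q).Nodup →
    (q.length : ℝ) * Real.logb 2 ((p ++ q).length : ℝ) ≤
      wsumF (p.reverse ++ ((p ++ q).reverse ++ g)) q := by
  induction q with
  | nil => intro p _; simp [wsumF]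
  | cons x q ih =>
    intro p hnd
    have e1 : p ++ x :: q = (p ++ [x]) ++ q := by simp
    have h1 := ih (p ++ [x]) (by rw [← e1]; exact hnd)
    rw [← e1] at h1
    have e2 : (p ++ [x]).reverse ++ ((p ++ x :: q).reverse ++ g) =
        x :: (p.reverse ++ ((p ++ x :: q).reverse ++ g)) := by simp
    rw [e2] at h1
    simp only [wsumF, List.length_cons]
    have e3 : p.reverse ++ ((p ++ x :: q).reverse ++ g) =
        (p.reverse ++ q.reverse) ++ (x :: (p.reverse ++ g)) := by simp
    have hnd' : (x :: (p ++ q)).Nodup := (List.perm_middle.nodup_iff).1 hnd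
    rw [List.nodup_cons] at hnd'
    have hx : x ∉ p.reverse ++ q.reverse := by
      intro hx
      apply hnd'.1
      simpa using hx
    have hP : (p.reverse ++ q.reverse).Nodup := by
      rw [← List.reverse_append, List.nodup_reverse]
      have : (q ++ p).Perm (p ++ q) := List.perm_append_comm
      exact this.nodup_iff.2 hnd'.2
    have h2 := wsF_ge x _ (x :: (p.reverse ++ g)) hx hP
    rw [← e3] at h2
    have h3 : Real.logb 2 (((p ++ x :: q).length : ℕ) : ℝ) ≤
        Real.logb 2 ((wsF (p.reverse ++ ((p ++ x :: q).reverse ++ g)) x : ℝ) + 1) := by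
      apply Real.logb_le_logb_of_le (by norm_num)
      · have : 0 < (p ++ x :: q).length := by simp
        exact_mod_cast this
      · have h4 : (p ++ x :: q).length ≤
            wsF (p.reverse ++ ((p ++ x :: q).reverse ++ g)) x + 1 := by
          simp only [List.length_append, List.length_cons, List.length_reverse] at h2 ⊢
          omega
        exact_mod_cast h4
    push_cast
    linarith

theorem ws_rep {n : ℕ} (ys : List (Fin n)) (hy : ys.Nodup) (R : ℕ) : ∀ g : List (Fin n),
    (R : ℝ) * (ys.length * Real.logb 2 (ys.length : ℝ)) ≤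
      wsumF (ys.reverse ++ g) (List.replicate R ys).flatten := by
  induction R with
  | zero => intro g; simp [wsumF]
  | succ R ih =>
    intro g
    rw [List.replicate_succ, List.flatten_cons, wsumF_append]
    have h1 := ws_copy g ys [] (by simpa using hy)
    simp only [List.nil_append, List.reverse_nil] at h1
    have h2 := ih (ys.reverse ++ g)
    push_cast
    linarith

theorem ws_rep' {n : ℕ} (ys : List (Fin n)) (hy : ys.Nodup) (R : ℕ) :
    (R : ℝ) * (ys.length * Real.logb 2 (ys.length : ℝ)) ≤
      wsumF [] (List.replicate (R + 1) ys).flatten := by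
  rw [List.replicate_succ, List.flatten_cons, wsumF_append]
  have h1 := ws_rep ys hy R []
  have h2 := wsumF_nonneg ys []
  linarith

end Pool.Agent.Run7.h934.FR
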