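import Pool.Agent.Run7.h934.FR.Base
import Pool.Agent.Run7.h934.FR.Phase
import Pool.Agent.Run7.h934.FR.Prob
import Pool.Agent.Run7.h934.FR.Serve
import Pool.Agent.Run7.h934.FR.WsLow
import Pool.Agent.N724.TX.Asm

set_option autoImplicit false

/-!
# Splay trees and few relabellings: assembly
-/

namespace Pool.Agent.Run7.h934.FR

open Pool.Agent.H581R2.Splay Pool.Agent.TH49.Spl Pool.Agent.Y395.SP Pool.Agent.N724.TW

/-- the interleave bound for the optimum -/
theorem opt_altU {n : ℕ} {T : Tr} (hT : keys T = List.range n) (u : Fin n → ℕ) (D : ℕ)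
    (X : List (Fin n)) :
    (altU u D (rel (pm u) X) : ℝ) ≤ 2 * optAny (List.range n) (rel (pm u) X) := by
  have h1 : ((altU u D (rel (pm u) X) : ℝ)) / 2 ≤
      (optAny (List.range n) (rel (pm u) X) : ℝ) := by
    refine optAny_ge hT fun T' c hT' hE => ?_
    have h2 := altU_le u D (bst_range hT') (fun x hx => by
      rw [hT', List.mem_range]; exact rel_mem (pm u) X x hx) hE
    have h4 : ((altU u D (rel (pm u) X) : ℕ) : ℝ) ≤ ((2 * c : ℕ) : ℝ) := by exact_mod_cast h2
    push_cast at h4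
    linarith
  linarith

/-- the working set theorem for splay trees -/
theorem splay_ws {n : ℕ} {T : Tr} (hT : keys T = List.range n) (X : List (Fin n))
    (ρ : Equiv.Perm (Fin n)) :
    (costSplay T (rel ρ X) : ℝ) ≤ 8 * X.length + 6 * wsumF [] X + 8 * (n * Real.logb 2 n) := by
  rcases X with _ | ⟨x0, X0⟩
  · have h0 : costSplay T (rel ρ []) = 0 := by simp [rel, costSplay]
    rw [h0]
    have : 0 ≤ Real.logb 2 n := by
      rcases Nat.eq_zero_or_pos n with rfl | hn
      · simp
      · exact Real.logb_nonneg (by norm_num) (by exact_mod_cast hn)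
    simp only [List.length_nil, wsumF]
    push_cast
    positivity
  · have hn : T ≠ Tr.nil := by
      rintro rfl
      have h1 : (keys Tr.nil).length = (List.range n).length := by rw [hT]
      simp only [keys, List.length_nil, List.length_range] at h1
      exact absurd x0.2 (by omega)
    have h1 := ws_holds T (rel ρ (x0 :: X0)) (bst_range hT) hn (fun x hx => by
      rw [hT, List.mem_range]; exact rel_mem ρ _ x hx)
    rw [holds_INV n ρ (x0 :: X0), hT, List.length_range] at h1
    have h3 : (rel ρ (x0 :: X0)).length = (x0 :: X0).length := by simp [rel]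
    rw [h3] at h1
    linarith

/-- disjoint halves of two sets with `2 m` elements -/
theorem halves {n : ℕ} (m : ℕ) (P P' : Finset (Fin n)) (h : P.card = 2 * m)
    (h' : P'.card = 2 * m) :
    ∃ A B : Finset (Fin n), A ⊆ P ∧ B ⊆ P' ∧ Disjoint A B ∧ A.card = m ∧ B.card = m := by
  obtain ⟨A, hA, hAc⟩ := Finset.exists_subset_card_eq (s := P) (n := m) (by omega)
  have h1 : m ≤ (P' \ A).card := by
    have := Finset.le_card_sdiff A P'
    omega
  obtain ⟨B, hB, hBc⟩ := Finset.exists_subset_card_eq h1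
  refine ⟨A, B, hA, hB.trans Finset.sdiff_subset, ?_, hAc, hBc⟩
  rw [Finset.disjoint_left]
  intro x hx hxB
  exact (Finset.mem_sdiff.1 (hB hxB)).2 hx

theorem GN_mono {n : ℕ} (w N : ℕ) (u : Fin n → ℕ) {A B A' B' : Finset (Fin n)} (hA : A ⊆ A')
    (hB : B ⊆ B') : GN w N u A B ⊆ GN w N u A' B' := by
  intro i hi
  unfold GN at hi ⊢
  rw [Finset.mem_filter] at hi ⊢
  obtain ⟨h0, ⟨y, hy, hy2⟩, x, hx, hx2⟩ := hi
  exact ⟨h0, ⟨y, hA hy, hy2⟩, x, hB hx, hx2⟩

/-- a weighted Markov inequality -/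
theorem markov {ι κ : Type} (I : Finset ι) (J : Finset κ) [DecidableEq ι] (wt : κ → ℕ)
    (bad : ι → κ → Prop) [∀ i j, Decidable (bad i j)] (d : ℕ)
    (h : ∀ j ∈ J, 2 * d * (I.filter fun i => bad i j).card ≤ I.card) :
    d * (I.filter fun i => ¬ (∑ j ∈ J, wt j ≤ 2 * ∑ j ∈ J.filter (fun j => ¬ bad i j), wt j)).card
      ≤ I.card := by
  set W := ∑ j ∈ J, wt j with hW
  set G := I.filter fun i => ¬ (W ≤ 2 * ∑ j ∈ J.filter (fun j => ¬ bad i j), wt j) with hG
  have hsplit : ∀ i, (∑ j ∈ J.filter (fun j => bad i j), wt j) +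
      ∑ j ∈ J.filter (fun j => ¬ bad i j), wt j = W := fun i =>
    Finset.sum_filter_add_sum_filter_not J (fun j => bad i j) wt
  have h1 : ∑ i ∈ I, ∑ j ∈ J.filter (fun j => bad i j), wt j =
      ∑ j ∈ J, (I.filter fun i => bad i j).card * wt j := by
    have : ∀ i ∈ I, ∑ j ∈ J.filter (fun j => bad i j), wt j =
        ∑ j ∈ J, if bad i j then wt j else 0 := fun i _ => Finset.sum_filter _ _
    rw [Finset.sum_congr rfl this, Finset.sum_comm]
    refine Finset.sum_congr rfl fun j _ => ?_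
    rw [← Finset.sum_filter, Finset.sum_const, smul_eq_mul]
  have h2 : 2 * d * ∑ i ∈ I, ∑ j ∈ J.filter (fun j => bad i j), wt j ≤ I.card * W := by
    rw [h1, hW, Finset.mul_sum, Finset.mul_sum]
    refine Finset.sum_le_sum fun j hj => ?_
    rw [← mul_assoc]
    exact Nat.mul_le_mul_right _ (h j hj)
  rcases Nat.eq_zero_or_pos W with h0 | h0
  · have : G = ∅ := by
      rw [hG, Finset.filter_eq_empty_iff]
      intro i _
      rw [h0]
      simp
    rw [this]
    simp
  · have h3 : G.card * W ≤ 2 * ∑ i ∈ I, ∑ j ∈ J.filter (fun j => bad i j), wt j := by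
      have e1 : G.card * W = ∑ i ∈ G, W := by rw [Finset.sum_const, smul_eq_mul]
      have e2 : ∑ i ∈ G, W ≤ ∑ i ∈ G, 2 * ∑ j ∈ J.filter (fun j => bad i j), wt j := by
        refine Finset.sum_le_sum fun i hi => ?_
        rw [hG, Finset.mem_filter] at hi
        have := hsplit i
        omega
      have e3 : ∑ i ∈ G, 2 * ∑ j ∈ J.filter (fun j => bad i j), wt j ≤
          ∑ i ∈ I, 2 * ∑ j ∈ J.filter (fun j => bad i j), wt j :=
        Finset.sum_le_sum_of_subset (Finset.filter_subset _ _)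
      rw [e1]
      refine e2.trans (e3.trans ?_)
      rw [Finset.mul_sum]
    have h4 : (d * G.card) * W ≤ I.card * W := by
      calc (d * G.card) * W = d * (G.card * W) := by ring
        _ ≤ d * (2 * ∑ i ∈ I, ∑ j ∈ J.filter (fun j => bad i j), wt j) :=
            Nat.mul_le_mul_left _ h3
        _ = 2 * d * ∑ i ∈ I, ∑ j ∈ J.filter (fun j => bad i j), wt j := by ring
        _ ≤ _ := h2
    exact Nat.le_of_mul_le_mul_right h4 h0

theorem MS_zero {n : ℕ} (s : ℕ) (hs : n ≤ s) (X : List (Fin n)) : ∀ h : List (Fin n),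
    MS s h X = 0 := by
  induction X with
  | nil => intro h; rfl
  | cons x X ih =>
    intro h
    have := wsF_lt h x
    simp only [MS]
    rw [if_neg (by omega), ih]

theorem geo (K n m : ℕ) : ∑ l ∈ Finset.range m, (if K * 2 ^ l < n then K * 2 ^ l else 0) ≤
    K * 2 ^ m ∧ ∑ l ∈ Finset.range m, (if K * 2 ^ l < n then K * 2 ^ l else 0) ≤ 2 * n := by
  induction m with
  | zero => simp
  | succ m ih =>
    rw [Finset.sum_range_succ]
    have e : K * 2 ^ (m + 1) = K * 2 ^ m + K * 2 ^ m := by rw [pow_succ]; ring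
    rw [e]
    split_ifs with h
    · exact ⟨by omega, by omega⟩
    · exact ⟨by omega, by omega⟩

/-- the additive term -/
def ad (n : ℕ) : ℕ := if n ≤ 1 then 0 else n

theorem geo_ad (K n m : ℕ) (hK : 1 ≤ K) :
    ∑ l ∈ Finset.range m, (if K * 2 ^ l < n then K * 2 ^ l else 0) ≤ 2 * ad n := by
  unfold ad
  split_ifs with h
  · apply le_of_eq
    rw [mul_zero]
    apply Finset.sum_eq_zero
    intro l _
    have : 1 ≤ K * 2 ^ l := Nat.mul_pos hK (by positivity)
    rw [if_neg (by omega)]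
  · exact (geo K n m).2

theorem ad_le (n : ℕ) : ad n ≤ n := by
  unfold ad
  split_ifs <;> omega

theorem logb_nonneg' (n : ℕ) : 0 ≤ Real.logb 2 (n : ℝ) := by
  rcases Nat.eq_zero_or_pos n with rfl | hn
  · simp
  · exact Real.logb_nonneg (by norm_num) (by exact_mod_cast hn)

theorem ad_log (n : ℕ) : (ad n : ℝ) ≤ n * Real.logb 2 n := by
  unfold ad
  split_ifs with h
  · have := logb_nonneg' n
    push_cast
    positivity
  · have h2 : 1 ≤ Real.logb 2 (n : ℝ) := by
      rw [Real.le_logb_iff_rpow_le (by norm_num) (by exact_mod_cast (by omega : 0 < n)),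
        Real.rpow_one]
      exact_mod_cast (by omega : 2 ≤ n)
    have h3 : (0 : ℝ) ≤ n := Nat.cast_nonneg n
    nlinarith

theorem log_le (K : ℕ) (hK : 1 ≤ K) : Real.logb 2 K ≤ K := by
  rw [Real.logb_le_iff_le_rpow (by norm_num) (by positivity), Real.rpow_natCast]
  exact_mod_cast (Nat.lt_two_pow_self (n := K)).le

open Classical in
/-- the working set bound is attained by most members of a small family -/
theorem main_ws (d n : ℕ) (hn : 1 ≤ n) :
    ∃ σ : Fin ((16 * d + 9) * (Nat.log 2 n + 1)) → Equiv.Perm (Fin n), ∀ X : List (Fin n),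
      d * (Finset.univ.filter fun i => ¬ (wsumF [] X ≤
          33 * (16 * d + 8) * optAny (List.range n) (rel (σ i) X) + 4 * ad n)).card ≤
        (16 * d + 9) * (Nat.log 2 n + 1) := by
  set k := (16 * d + 9) * (Nat.log 2 n + 1) with hk
  have hk2 : n ^ (16 * d + 9) < 2 ^ k := by
    have e1 : 2 ^ k = (2 ^ (Nat.log 2 n + 1)) ^ (16 * d + 9) := by
      rw [hk, ← pow_mul, mul_comm]
    rw [e1]
    exact Nat.pow_lt_pow_left (Nat.lt_pow_succ_log_self (by norm_num) n) (by omega)
  obtain ⟨τ, hτ⟩ := exists_family n d k hn hk2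
  refine ⟨fun i => pm (fun x => (τ i x : ℕ)), fun X => ?_⟩
  obtain ⟨T, hT⟩ := exists_tree (List.range n)
  -- the phases
  obtain ⟨K, hKdef⟩ : ∃ K : ℕ, K = 16 * d + 8 := ⟨_, rfl⟩
  have hK1 : 1 ≤ K := by omega
  have hph := fun e : ℕ => phases (K * 2 ^ (n - 1 - e)) (Nat.mul_pos hK1 (by positivity))
    X.length X [] le_rfl
  choose L R hX hL hMS using hph
  have hhalf : ∀ (e : ℕ) (j : Fin (L e).length), ∃ A B : Finset (Fin n),
      A ⊆ ((L e)[j.1]).1.toFinset ∧ B ⊆ ((L e)[j.1]).2.toFinset ∧ Disjoint A B ∧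
      A.card = 2 * (4 * d + 2) * 2 ^ (n - 1 - e) ∧
      B.card = 2 * (4 * d + 2) * 2 ^ (n - 1 - e) := by
    intro e j
    have h1 := hL e _ (List.getElem_mem j.2)
    have e1 : K * 2 ^ (n - 1 - e) = 2 * (2 * (4 * d + 2) * 2 ^ (n - 1 - e)) := by
      rw [hKdef]; ring
    rw [e1] at h1
    exact halves _ _ _ h1.1 h1.2
  choose A B hA hB hAB hAc hBc using hhalf
  set J : Finset (Σ e : ℕ, Fin (L e).length) :=
    (Finset.range n).sigma fun e => (Finset.univ : Finset (Fin (L e).length)) with hJ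
  set wt : (Σ e : ℕ, Fin (L e).length) → ℕ := fun p => 2 ^ (n - 1 - p.1) with hwt
  set bad : Fin k → (Σ e : ℕ, Fin (L e).length) → Prop := fun i p =>
    4 * (GN (2 ^ p.1) (2 ^ (n - 1 - p.1)) (fun x => (τ i x : ℕ)) (A p.1 p.2) (B p.1 p.2)).card <
      2 ^ (n - 1 - p.1) with hbad
  have hm := markov (Finset.univ : Finset (Fin k)) J wt bad d (by
    intro p hp
    rw [hJ, Finset.mem_sigma, Finset.mem_range] at hp
    rw [Finset.card_univ, Fintype.card_fin]
    exact hτ p.1 hp.1 (A p.1 p.2) (B p.1 p.2) (hAB p.1 p.2) (hAc p.1 p.2) (hBc p.1 p.2))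
  rw [Finset.card_univ, Fintype.card_fin] at hm
  refine le_trans (Nat.mul_le_mul_left d (Finset.card_le_card ?_)) hm
  intro i hi
  rw [Finset.mem_filter] at hi ⊢
  refine ⟨hi.1, fun hgood => hi.2 ?_⟩
  -- the lower bound for the optimum
  set u : Fin n → ℕ := fun x => (τ i x : ℕ) with hu
  have halt : ∑ p ∈ J.filter (fun p => ¬ bad i p), wt p ≤ 4 * altU u n (rel (pm u) X) := by
    have h1 : ∀ e ∈ Finset.range n, ∑ j : Fin (L e).length,
        (if ¬ bad i ⟨e, j⟩ then 2 ^ (n - 1 - e) else 0) ≤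
        4 * ∑ a ∈ Finset.range (2 ^ (n - 1 - e)),
          cnt (F u (a * (2 * 2 ^ e))) (F u (a * (2 * 2 ^ e) + 2 ^ e))
            (F u ((a + 1) * (2 * 2 ^ e))) false (rel (pm u) X) := by
      intro e _
      have h2 := level_le u (2 ^ e) (2 ^ (n - 1 - e)) (by positivity) (R e) (L e) (fun _ => false)
      rw [← hX e, ← Fin.sum_univ_fun_getElem] at h2
      refine le_trans ?_ (Nat.mul_le_mul_left 4 h2)
      rw [Finset.mul_sum]
      refine Finset.sum_le_sum fun j _ => ?_
      by_cases h3 : bad i ⟨e, j⟩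
      · rw [if_neg (not_not.2 h3)]
        exact Nat.zero_le _
      · rw [if_pos h3]
        have h4 := Finset.card_le_card
          (GN_mono (2 ^ e) (2 ^ (n - 1 - e)) u (hA e j) (hB e j))
        have h5 : ¬ (4 * (GN (2 ^ e) (2 ^ (n - 1 - e)) u (A e j) (B e j)).card <
          2 ^ (n - 1 - e)) := h3
        omega
    rw [Finset.sum_filter, hJ, Finset.sum_sigma]
    unfold altU
    rw [Finset.mul_sum]
    exact Finset.sum_le_sum h1
  have hW : ∑ p ∈ J, wt p = ∑ e ∈ Finset.range n, (L e).length * 2 ^ (n - 1 - e) := by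
    rw [hJ, Finset.sum_sigma]
    refine Finset.sum_congr rfl fun e _ => ?_
    simp only [hwt]
    rw [Finset.sum_const, Finset.card_univ, Fintype.card_fin, smul_eq_mul]
  rw [hW] at hgood
  set W := ∑ e ∈ Finset.range n, (L e).length * 2 ^ (n - 1 - e) with hWdef
  have hW8 : W ≤ 8 * altU u n (rel (pm u) X) := by
    have : 2 * ∑ p ∈ J.filter (fun p => ¬ bad i p), wt p ≤ 8 * altU u n (rel (pm u) X) := by
      omega
    exact hgood.trans this
  have hopt := opt_altU hT u n X
  have hlen := opt_len hT (pm u) X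
  have hW16 : (W : ℝ) ≤ 16 * optAny (List.range n) (rel (pm u) X) := by
    have h1 : (W : ℝ) ≤ 8 * altU u n (rel (pm u) X) := by exact_mod_cast hW8
    linarith
  -- the working set bound
  have h1 := wsumF_levels K hK1 X []
  have h2 : ∑ l ∈ Finset.range n, MS (K * 2 ^ l) [] X =
      ∑ e ∈ Finset.range n, MS (K * 2 ^ (n - 1 - e)) [] X :=
    (Finset.sum_range_reflect (fun l => MS (K * 2 ^ l) [] X) n).symm
  have h3 : ∀ e ∈ Finset.range n, MS (K * 2 ^ (n - 1 - e)) [] X ≤
      2 * K * ((L e).length * 2 ^ (n - 1 - e)) +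
        2 * (if K * 2 ^ (n - 1 - e) < n then K * 2 ^ (n - 1 - e) else 0) := by
    intro e _
    split_ifs with h4
    · refine (hMS e).trans (le_of_eq ?_)
      ring
    · rw [MS_zero _ (not_lt.1 h4)]
      exact Nat.zero_le _
  have h5 := Finset.sum_le_sum h3
  rw [Finset.sum_add_distrib, ← Finset.mul_sum, ← Finset.mul_sum,
    Finset.sum_range_reflect (fun l => if K * 2 ^ l < n then K * 2 ^ l else 0) n, ← h2,
    ← hWdef] at h5
  have h6 := geo_ad K n n hK1
  have h7 : ∑ l ∈ Finset.range n, MS (K * 2 ^ l) [] X ≤ 2 * K * W + 4 * ad n := by omega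
  have h7' : ((∑ l ∈ Finset.range n, MS (K * 2 ^ l) [] X : ℕ) : ℝ) ≤ 2 * K * W + 4 * ad n := by
    exact_mod_cast h7
  have h8 := mul_le_mul_of_nonneg_right (log_le K hK1) (Nat.cast_nonneg (α := ℝ) X.length)
  set O : ℝ := (optAny (List.range n) (rel (pm u) X) : ℝ) with hO
  have hO0 : 0 ≤ O := by rw [hO]; positivity
  have hK0 : (0 : ℝ) ≤ K := Nat.cast_nonneg K
  have q1 : 2 * (K : ℝ) * W ≤ 2 * K * (16 * O) := mul_le_mul_of_nonneg_left hW16 (by positivity)
  have q2 : (K : ℝ) * X.length ≤ K * O := mul_le_mul_of_nonneg_left hlen hK0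
  have q3 : (K : ℝ) = 16 * d + 8 := by rw [hKdef]; push_cast; ring
  have q4 : 33 * (16 * (d : ℝ) + 8) * O = 33 * K * O := by rw [q3]
  rw [q4]
  linarith

open Classical in
/-- the upper bound -/
theorem upper (d n : ℕ) (hd : 1 ≤ d) :
    ∃ σ : Fin ((16 * d + 9) * (Nat.log 2 n + 1)) → Equiv.Perm (Fin n), ∀ X : List (Fin n),
      d * (Finset.univ.filter fun i => ¬ ∀ T : Tr, keys T = List.range n →
        ∀ ρ : Equiv.Perm (Fin n),
          (costSplay T (rel ρ X) : ℝ) ≤
            4760 * d * optAny (List.range n) (rel (σ i) X) + 32 * (n * Real.logb 2 n) ∧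
          ((∀ x : Fin n, x ∈ X) → (costSplay T (rel ρ X) : ℝ) ≤
            11164 * d * optAny (List.range n) (rel (σ i) X))).card ≤
        (16 * d + 9) * (Nat.log 2 n + 1) := by
  have hd1 : (1 : ℝ) ≤ d := by exact_mod_cast hd
  rcases Nat.eq_zero_or_pos n with rfl | hn
  · refine ⟨fun _ => 1, fun X => ?_⟩
    have hX : X = [] := by
      rcases X with _ | ⟨x, X⟩
      · rfl
      · exact x.elim0
    subst hX
    refine le_trans (le_of_eq ?_) (Nat.zero_le _)
    rw [Nat.mul_eq_zero]
    right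
    rw [Finset.card_eq_zero, Finset.filter_eq_empty_iff]
    intro i _ hcon
    apply hcon
    intro T _ ρ
    have h0 : costSplay T (rel ρ []) = 0 := by simp [rel, costSplay]
    rw [h0]
    constructor
    · simp only [Nat.cast_zero, zero_mul, mul_zero, add_zero]
      positivity
    · intro _
      push_cast
      positivity
  obtain ⟨σ, hσ⟩ := main_ws d n hn
  refine ⟨σ, fun X => le_trans (Nat.mul_le_mul_left d (Finset.card_le_card ?_)) (hσ X)⟩
  intro i hi
  rw [Finset.mem_filter] at hi ⊢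
  refine ⟨hi.1, fun hws => hi.2 fun T hT ρ => ?_⟩
  have hsp := splay_ws hT X ρ
  have hlen := opt_len hT (σ i) X
  set O : ℝ := (optAny (List.range n) (rel (σ i) X) : ℝ) with hO
  have hO0 : 0 ≤ O := by rw [hO]; positivity
  have q4 : O ≤ d * O := by nlinarith
  constructor
  · have := ad_log n
    nlinarith
  · intro hall
    have h1 := Pool.Agent.N724.TX.nlogn_le hall
    have h4 : n ≤ X.length := by
      have h5 := List.toFinset_card_le X
      have h2 : X.toFinset = Finset.univ := by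
        ext x
        simp [hall x]
      rwa [h2, Finset.card_univ, Fintype.card_fin] at h5
    have h5 : (ad n : ℝ) ≤ X.length := by exact_mod_cast (ad_le n).trans h4
    nlinarith

/-! ### The lower bound -/

theorem len_costSplay (X : List ℕ) : ∀ T : Tr, X.length ≤ costSplay T X := by
  induction X with
  | nil => intro T; simp
  | cons x X ih =>
    intro T
    have := ih (splay x T)
    simp only [costSplay, List.length_cons]
    omega

/-- the lower bound -/
theorem lower (n k M : ℕ) (hn : 1 ≤ n) (σ : Fin k → Equiv.Perm (Fin n)) :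
    ∃ X : List (Fin n), M ≤ X.length ∧
      (∀ i, optAny (List.range n) (rel (σ i) X) ≤ 9 * X.length) ∧
      ∃ ρ : Equiv.Perm (Fin n), ∀ T : Tr, keys T = List.range n →
        (Real.logb 2 n / (k + 1) - 1) * X.length ≤ 5288 * costSplay T (rel ρ X) := by
  classical
  obtain ⟨m, hm⟩ : ∃ m, m = Nat.log 2 n / (k + 1) := ⟨_, rfl⟩
  have hcard : 2 ^ (((List.ofFn σ).length + 1) * m) ≤ (Finset.univ : Finset (Fin n)).card := by
    rw [List.length_ofFn, Finset.card_univ, Fintype.card_fin]
    refine le_trans (Nat.pow_le_pow_right (by norm_num) ?_) (Nat.pow_log_le_self 2 (by omega))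
    rw [hm]
    exact Nat.mul_div_le _ _
  obtain ⟨t, -, t2, t3, t4⟩ := exists_DT (List.ofFn σ) m Finset.univ hcard
  obtain ⟨R, hR⟩ : ∃ R, R = M + n + 1 := ⟨_, rfl⟩
  set X := (List.replicate (R + 1) (lvs t)).flatten with hX
  have hXl : X.length = (R + 1) * 2 ^ m := by
    rw [hX]
    simp [t3]
  have hXn : M + n ≤ X.length := by
    rw [hXl]
    have : 1 ≤ 2 ^ m := Nat.one_le_two_pow
    nlinarith
  refine ⟨X, by omega, fun i => ?_, ?_⟩
  · exact opt_rep (σ i) t (t4 (σ i) (List.mem_ofFn.2 ⟨i, rfl⟩)) R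
  · obtain ⟨τ, hτ⟩ := main_ws 2 n hn
    have h1 := hτ X
    obtain ⟨i, hi⟩ : ∃ i, wsumF [] X ≤
        33 * (16 * (2 : ℕ) + 8) * optAny (List.range n) (rel (τ i) X) + 4 * ad n := by
      by_contra hcon
      push Not at hcon
      rw [Finset.filter_true_of_mem (fun i _ => not_le.2 (hcon i)), Finset.card_univ,
        Fintype.card_fin] at h1
      have : 0 < (16 * 2 + 9) * (Nat.log 2 n + 1) := by positivity
      omega
    refine ⟨τ i, fun T hT => ?_⟩
    have hb := bst_range hT
    obtain ⟨c, hc, hE⟩ := Pool.Agent.R531.Spl.serve (rel (τ i) X) hb (fun x hx => by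
      rw [hT, List.mem_range]; exact rel_mem (τ i) X x hx)
    have h2 : optAny (List.range n) (rel (τ i) X) ≤ c := by
      apply Nat.sInf_le
      exact ⟨T, hT, hE.exec⟩
    have h3 : (optAny (List.range n) (rel (τ i) X) : ℝ) ≤ 2 * costSplay T (rel (τ i) X) := by
      exact_mod_cast h2.trans hc
    have h4 : X.length ≤ costSplay T (rel (τ i) X) := by
      have := len_costSplay (rel (τ i) X) T
      rwa [show (rel (τ i) X).length = X.length by simp [rel]] at this
    have h5 : ((ad n : ℕ) : ℝ) ≤ X.length := by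
      have := ad_le n
      exact_mod_cast (by omega : ad n ≤ X.length)
    have h6 := ws_rep' (lvs t) t2 R
    rw [← hX, t3] at h6
    have e1 : Real.logb 2 (((2 ^ m : ℕ)) : ℝ) = m := by
      push_cast
      rw [Real.logb_pow, Real.logb_self_eq_one (by norm_num), mul_one]
    rw [e1] at h6
    have hR1 : (1 : ℝ) ≤ R := by rw [hR]; push_cast; linarith [Nat.cast_nonneg (α := ℝ) M, Nat.cast_nonneg (α := ℝ) n]
    have hXr : (X.length : ℝ) = (R + 1) * (2 ^ m : ℕ) := by rw [hXl]; push_cast; ring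
    have h7 : (m : ℝ) * X.length ≤ 2 * wsumF [] X := by
      rw [hXr]
      have h8 : (0 : ℝ) ≤ ((2 ^ m : ℕ) : ℝ) * m := by positivity
      nlinarith
    have h9 : Real.logb 2 n / (k + 1) - 1 ≤ m := by
      have h10 : Real.logb 2 (n : ℝ) ≤ Nat.log 2 n + 1 := by
        rw [Real.logb_le_iff_le_rpow (by norm_num) (by exact_mod_cast hn)]
        have h11 : ((n : ℕ) : ℝ) ≤ ((2 ^ (Nat.log 2 n + 1) : ℕ) : ℝ) := by
          exact_mod_cast (Nat.lt_pow_succ_log_self (by norm_num) n).le
        have h12 : (2 : ℝ) ^ ((Nat.log 2 n : ℝ) + 1) = ((2 ^ (Nat.log 2 n + 1) : ℕ) : ℝ) := by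
          rw [← Nat.cast_succ, Real.rpow_natCast]
          push_cast
          rfl
        rw [h12]
        exact h11
      have h13 : Nat.log 2 n + 1 ≤ (k + 1) * (m + 1) := by
        have := Nat.lt_mul_div_succ (Nat.log 2 n) (Nat.succ_pos k)
        rw [hm]
        exact this
      have h14 : ((Nat.log 2 n : ℕ) : ℝ) + 1 ≤ (k + 1) * (m + 1) := by exact_mod_cast h13
      rw [sub_le_iff_le_add, div_le_iff₀ (by positivity)]
      linarith
    have h15 := mul_le_mul_of_nonneg_right h9 (Nat.cast_nonneg (α := ℝ) X.length)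
    have h16 : (X.length : ℝ) ≤ costSplay T (rel (τ i) X) := by exact_mod_cast h4
    push_cast at hi
    linarith

end Pool.Agent.Run7.h934.FR
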