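import Pool.Agent.N724.TW.Asm

set_option autoImplicit false

/-!
# Splay trees and few relabellings: common decompositions of few permutations
-/

namespace Pool.Agent.Run7.h934.FR

/-- binary trees with keys at the leaves -/
inductive DT (n : ℕ) : Type
  | leaf (x : Fin n) : DT n
  | node (l r : DT n) : DT n

/-- the leaves from left to right -/
def lvs {n : ℕ} : DT n → List (Fin n)
  | .leaf x => [x]
  | .node l r => lvs l ++ lvs r

theorem lvs_ne {n : ℕ} (t : DT n) : lvs t ≠ [] := by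
  induction t with
  | leaf x => simp [lvs]
  | node l r ihl _ => simp [lvs, ihl]

/-- `s` separates the values of `f` on `A` from those on `B` -/
def Sp {n : ℕ} (f : Fin n → ℕ) (A B : Fin n → Prop) (s : ℕ) : Prop :=
  ((∀ x, A x → f x < s) ∧ ∀ y, B y → s < f y) ∨ ((∀ y, B y → f y < s) ∧ ∀ x, A x → s < f x)

/-- at every node the values of `σ` at the leaves on the two sides are separated -/
def Sep {n : ℕ} (σ : Equiv.Perm (Fin n)) : DT n → Prop
  | .leaf _ => True
  | .node l r => (∃ s : ℕ, Sp (fun x => (σ x : ℕ)) (· ∈ lvs l) (· ∈ lvs r) s) ∧ Sep σ l ∧ Sep σ r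

theorem sep_aux {n : ℕ} (f : Fin n → ℕ) (hf : Function.Injective f) (A B : Finset (Fin n))
    (hAB : Disjoint A B) (p s : ℕ) (hB : 2 * p ≤ B.card)
    (h1 : p ≤ (A.filter fun x => f x < s).card) (h2 : (A.filter fun x => f x < s - 1).card < p)
    (h3 : (B.filter fun x => f x < s - 1).card < p) :
    p ≤ (B.filter fun x => s < f x).card := by
  obtain ⟨a, ha, has⟩ : ∃ a ∈ A, f a = s - 1 := by
    by_contra hcon
    push Not at hcon
    have hsub : (A.filter fun x => f x < s) ⊆ A.filter fun x => f x < s - 1 := by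
      intro x hx
      rw [Finset.mem_filter] at hx ⊢
      have := hcon x hx.1
      exact ⟨hx.1, by omega⟩
    have := Finset.card_le_card hsub
    omega
  have h4 : (B.filter fun x => ¬ s < f x) ⊆
      (B.filter fun x => f x < s - 1) ∪ B.filter fun x => f x = s := by
    intro x hx
    rw [Finset.mem_filter] at hx
    rw [Finset.mem_union, Finset.mem_filter, Finset.mem_filter]
    have hne : f x ≠ s - 1 := by
      intro h
      have : x = a := hf (h.trans has.symm)
      subst this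
      exact Finset.disjoint_left.1 hAB ha hx.1
    by_cases h5 : f x = s
    · exact Or.inr ⟨hx.1, h5⟩
    · exact Or.inl ⟨hx.1, by omega⟩
  have h5 := (Finset.card_le_card h4).trans (Finset.card_union_le _ _)
  have h6 : (B.filter fun x => f x = s).card ≤ 1 := by
    rw [Finset.card_le_one]
    intro a ha b hb
    rw [Finset.mem_filter] at ha hb
    exact hf (ha.2.trans hb.2.symm)
  have h7 := Finset.card_filter_add_card_filter_not (s := B) (fun x => s < f x)
  omega

theorem sep_one {n : ℕ} (f : Fin n → ℕ) (hf : Function.Injective f) (A B : Finset (Fin n))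
    (hAB : Disjoint A B) (p : ℕ) (hp : 1 ≤ p) (hA : 2 * p ≤ A.card) (hB : 2 * p ≤ B.card) :
    ∃ A' B' : Finset (Fin n), A' ⊆ A ∧ B' ⊆ B ∧ p ≤ A'.card ∧ p ≤ B'.card ∧
      ∃ s : ℕ, Sp f (· ∈ A') (· ∈ B') s := by
  classical
  have hex : ∃ v : ℕ, p ≤ (A.filter fun x => f x < v).card ∨
      p ≤ (B.filter fun x => f x < v).card := by
    refine ⟨A.sup f + 1, Or.inl ?_⟩
    have : (A.filter fun x => f x < A.sup f + 1) = A := by
      rw [Finset.filter_true_of_mem]
      intro x hx
      have := Finset.le_sup (f := f) hx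
      omega
    rw [this]
    omega
  obtain ⟨s, hs, hmin⟩ : ∃ s : ℕ, (p ≤ (A.filter fun x => f x < s).card ∨
      p ≤ (B.filter fun x => f x < s).card) ∧ ∀ v < s, ¬ (p ≤ (A.filter fun x => f x < v).card ∨
      p ≤ (B.filter fun x => f x < v).card) :=
    ⟨Nat.find hex, Nat.find_spec hex, fun v hv => Nat.find_min hex hv⟩
  have hs1 : 1 ≤ s := by
    by_contra h0
    have h0' : s = 0 := by omega
    subst h0'
    simp at hs
    omega
  have hm := hmin (s - 1) (by omega)
  push Not at hm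
  rcases hs with hs | hs
  · refine ⟨A.filter fun x => f x < s, B.filter fun x => s < f x, Finset.filter_subset _ _,
      Finset.filter_subset _ _, hs, sep_aux f hf A B hAB p s hB hs hm.1 hm.2, s, Or.inl ⟨?_, ?_⟩⟩
    · intro x hx
      exact (Finset.mem_filter.1 hx).2
    · intro x hx
      exact (Finset.mem_filter.1 hx).2
  · refine ⟨A.filter fun x => s < f x, B.filter fun x => f x < s, Finset.filter_subset _ _,
      Finset.filter_subset _ _, sep_aux f hf B A hAB.symm p s hA hs hm.2 hm.1, hs, s,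
      Or.inr ⟨?_, ?_⟩⟩
    · intro x hx
      exact (Finset.mem_filter.1 hx).2
    · intro x hx
      exact (Finset.mem_filter.1 hx).2

theorem sep_list {n : ℕ} (p : ℕ) (hp : 1 ≤ p) (Ls : List (Equiv.Perm (Fin n))) :
    ∀ A B : Finset (Fin n), Disjoint A B → 2 ^ Ls.length * p ≤ A.card →
      2 ^ Ls.length * p ≤ B.card →
      ∃ A' B' : Finset (Fin n), A' ⊆ A ∧ B' ⊆ B ∧ p ≤ A'.card ∧ p ≤ B'.card ∧
        ∀ σ ∈ Ls, ∃ s : ℕ, Sp (fun x => (σ x : ℕ)) (· ∈ A') (· ∈ B') s := by
  induction Ls with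
  | nil =>
    intro A B _ hA hB
    exact ⟨A, B, le_rfl, le_rfl, by simpa using hA, by simpa using hB, by simp⟩
  | cons τ Ls ih =>
    intro A B hAB hA hB
    have e1 : 2 ^ (τ :: Ls).length * p = 2 * (2 ^ Ls.length * p) := by
      rw [List.length_cons, pow_succ]; ring
    rw [e1] at hA hB
    obtain ⟨A1, B1, a1, b1, ca1, cb1, s, hs⟩ := sep_one (fun x => (τ x : ℕ))
      (fun x y h => τ.injective (Fin.ext h)) A B hAB (2 ^ Ls.length * p)
      (Nat.mul_pos (by positivity) hp) hA hB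
    obtain ⟨A2, B2, a2, b2, ca2, cb2, h2⟩ := ih A1 B1
      (Finset.disjoint_of_subset_left a1 (Finset.disjoint_of_subset_right b1 hAB)) ca1 cb1
    refine ⟨A2, B2, a2.trans a1, b2.trans b1, ca2, cb2, ?_⟩
    intro σ hσ
    rcases List.mem_cons.1 hσ with rfl | hσ
    · refine ⟨s, ?_⟩
      rcases hs with ⟨h3, h4⟩ | ⟨h3, h4⟩
      · exact Or.inl ⟨fun x hx => h3 x (a2 hx), fun y hy => h4 y (b2 hy)⟩
      · exact Or.inr ⟨fun y hy => h3 y (b2 hy), fun x hx => h4 x (a2 hx)⟩
    · exact h2 σ hσ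

/-- common decompositions -/
theorem exists_DT {n : ℕ} (Ls : List (Equiv.Perm (Fin n))) : ∀ (m : ℕ) (S : Finset (Fin n)),
    2 ^ ((Ls.length + 1) * m) ≤ S.card → ∃ t : DT n, (∀ x ∈ lvs t, x ∈ S) ∧ (lvs t).Nodup ∧
      (lvs t).length = 2 ^ m ∧ ∀ σ ∈ Ls, Sep σ t := by
  intro m
  induction m with
  | zero =>
    intro S hS
    have hne : S.Nonempty := by
      rw [← Finset.card_pos]
      have : 1 ≤ S.card := by simpa using hS
      omega
    obtain ⟨x, hx⟩ := hne
    exact ⟨DT.leaf x, by simpa [lvs] using hx, by simp [lvs], by simp [lvs], fun σ _ => trivial⟩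
  | succ m ih =>
    intro S hS
    have e1 : 2 ^ ((Ls.length + 1) * (m + 1)) =
        2 * (2 ^ Ls.length * 2 ^ ((Ls.length + 1) * m)) := by
      rw [← pow_add, ← pow_succ']
      congr 1
      ring
    rw [e1] at hS
    obtain ⟨A, hA, hAc⟩ := Finset.exists_subset_card_eq (s := S)
      (n := 2 ^ Ls.length * 2 ^ ((Ls.length + 1) * m)) (by omega)
    have hB : 2 ^ Ls.length * 2 ^ ((Ls.length + 1) * m) ≤ (S \ A).card := by
      have := Finset.card_sdiff_add_card_eq_card hA
      omega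
    obtain ⟨A', B', a1, b1, ca, cb, h2⟩ := sep_list (2 ^ ((Ls.length + 1) * m))
      (Nat.one_le_two_pow) Ls A (S \ A) Finset.disjoint_sdiff hAc.ge hB
    obtain ⟨t, t1, t2, t3, t4⟩ := ih A' ca
    obtain ⟨r, r1, r2, r3, r4⟩ := ih B' cb
    refine ⟨DT.node t r, ?_, ?_, ?_, ?_⟩
    · intro x hx
      rw [lvs, List.mem_append] at hx
      rcases hx with hx | hx
      · exact hA (a1 (t1 x hx))
      · exact (Finset.mem_sdiff.1 (b1 (r1 x hx))).1
    · rw [lvs, List.nodup_append]
      refine ⟨t2, r2, ?_⟩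
      rintro x hx y hy rfl
      exact (Finset.mem_sdiff.1 (b1 (r1 x hy))).2 (a1 (t1 x hx))
    · rw [lvs, List.length_append, t3, r3, pow_succ]
      ring
    · intro σ hσ
      refine ⟨?_, t4 σ hσ, r4 σ hσ⟩
      obtain ⟨s, hs⟩ := h2 σ hσ
      refine ⟨s, ?_⟩
      rcases hs with ⟨h3, h4⟩ | ⟨h3, h4⟩
      · exact Or.inl ⟨fun x hx => h3 x (t1 x hx), fun y hy => h4 y (r1 y hy)⟩
      · exact Or.inr ⟨fun y hy => h3 y (r1 y hy), fun x hx => h4 x (t1 x hx)⟩

end Pool.Agent.Run7.h934.FR
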